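import Pool.Agent.Q60.TM.Defs
import Mathlib.Analysis.Calculus.FDeriv.Mul
import Mathlib.Analysis.Calculus.FDeriv.Pi
import Mathlib.Analysis.Calculus.Deriv.Inv
import Mathlib.Analysis.Calculus.FDeriv.Pow
import Mathlib.Topology.Algebra.ConstMulAction

/-!
# Holomorphy of the action of the symplectic group
-/

set_option autoImplicit false

open Matrix Complex

namespace Pool.Agent.Q60.TM

variable {g : ℕ}

lemma diff_det {E : Type*} [NormedAddCommGroup E] [NormedSpace ℂ E]
    {M : E → Matrix (Fin g) (Fin g) ℂ} {z : E} (h : ∀ i j, DifferentiableAt ℂ (fun w => M w i j) z) :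
    DifferentiableAt ℂ (fun w => (M w).det) z := by
  simp only [Matrix.det_apply']
  apply DifferentiableAt.fun_sum
  intro σ _
  apply DifferentiableAt.const_mul
  have := HasFDerivAt.finsetProd (u := Finset.univ) (g := fun i w => M w (σ i) i)
    (g' := fun i => fderiv ℂ (fun w => M w (σ i) i) z) (x := z)
    (fun i _ => (h (σ i) i).hasFDerivAt)
  exact this.differentiableAt

lemma diff_inv {E : Type*} [NormedAddCommGroup E] [NormedSpace ℂ E]
    {M : E → Matrix (Fin g) (Fin g) ℂ} {z : E} (h : ∀ i j, DifferentiableAt ℂ (fun w => M w i j) z)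
    (h0 : (M z).det ≠ 0) (k l : Fin g) :
    DifferentiableAt ℂ (fun w => (M w)⁻¹ k l) z := by
  have e : (fun w => (M w)⁻¹ k l) = fun w => ((M w).det)⁻¹ *
      ((M w).updateRow l (Pi.single k 1)).det := by
    funext w
    rw [Matrix.inv_def, Matrix.smul_apply, Ring.inverse_eq_inv', smul_eq_mul,
      Matrix.adjugate_apply]
  rw [e]
  apply DifferentiableAt.mul
  · exact (diff_det h).inv h0
  · apply diff_det
    intro i j
    by_cases hi : i = l
    · subst hi
      simp only [Matrix.updateRow_self]
      exact differentiableAt_const _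
    · simp only [Matrix.updateRow_ne hi]
      exact h i j

lemma diff_lin (a b : Matrix (Fin g) (Fin g) ℂ) (z : Fin g → Fin g → ℂ) (i j : Fin g) :
    DifferentiableAt ℂ (fun w : Fin g → Fin g → ℂ => (a * Matrix.of w + b) i j) z := by
  simp only [Matrix.add_apply, Matrix.mul_apply, Matrix.of_apply]
  apply DifferentiableAt.add_const
  apply DifferentiableAt.fun_sum
  intro k _
  apply DifferentiableAt.const_mul
  have h1 : DifferentiableAt ℂ (fun w : Fin g → Fin g → ℂ => w k) z := differentiableAt_apply k z
  exact (differentiableAt_pi.1 h1) j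

/-- The map `z ↦ (a z + b) (c z + d)⁻¹` in coordinates. -/
noncomputable def mcoord (γ : Sp g) (z : Fin g → Fin g → ℂ) : Fin g → Fin g → ℂ :=
  fun i j => moeb γ (Matrix.of z) i j

lemma mcoord_coords (γ : Sp g) (τ : SiegelSpace g) : mcoord γ (coords τ) = coords (γ • τ) := rfl

lemma diff_mcoord (γ : Sp g) {z : Fin g → Fin g → ℂ} (h0 : (den γ (Matrix.of z)).det ≠ 0) :
    DifferentiableAt ℂ (mcoord γ) z := by
  rw [differentiableAt_pi]
  intro i
  rw [differentiableAt_pi]
  intro j
  unfold mcoord moeb
  simp only [Matrix.mul_apply]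
  apply DifferentiableAt.fun_sum
  intro k _
  apply DifferentiableAt.mul
  · exact diff_lin _ _ z i k
  · exact diff_inv (M := fun w => den γ (Matrix.of w)) (fun i j => diff_lin _ _ z i j) h0 k j

lemma continuous_coords : Continuous (coords : SiegelSpace g → Fin g → Fin g → ℂ) :=
  continuous_subtype_val

lemma isInducing_coords : Topology.IsInducing (coords : SiegelSpace g → Fin g → Fin g → ℂ) :=
  Topology.IsInducing.subtypeVal

lemma continuous_smul' (γ : Sp g) : Continuous (fun τ : SiegelSpace g => γ • τ) := by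
  rw [isInducing_coords.continuous_iff, continuous_iff_continuousAt]
  intro τ
  have h1 : ContinuousAt (mcoord γ) (coords τ) :=
    (diff_mcoord γ (den_det_isUnit γ τ).ne_zero).continuousAt
  exact ContinuousAt.comp (f := coords) (g := mcoord γ) (x := τ) h1 continuous_coords.continuousAt

instance : ContinuousConstSMul (Sp g) (SiegelSpace g) := ⟨continuous_smul'⟩

/-- holomorphy is preserved by the action -/
lemma HolAt.smul {f : SiegelSpace g → ℂ} {γ : Sp g} {τ : SiegelSpace g} (h : HolAt f (γ • τ)) :
    HolAt (fun σ => f (γ • σ)) τ := by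
  obtain ⟨W, F, hW, hτ, hF, hf⟩ := h
  set D : Set (Fin g → Fin g → ℂ) := {z | (den γ (Matrix.of z)).det ≠ 0} with hD
  have hDo : IsOpen D := by
    have : Continuous fun z : Fin g → Fin g → ℂ => (den γ (Matrix.of z)).det := by
      rw [continuous_iff_continuousAt]
      intro z
      exact (diff_det (M := fun w => den γ (Matrix.of w)) fun i j => diff_lin _ _ z i j).continuousAt
    exact isOpen_ne.preimage this
  have hcont : ContinuousOn (mcoord γ) D := fun z hz => (diff_mcoord γ hz).continuousAt.continuousWithinAt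
  refine ⟨D ∩ mcoord γ ⁻¹' W, F ∘ mcoord γ, hcont.isOpen_inter_preimage hDo hW,
    ⟨(den_det_isUnit γ τ).ne_zero, ?_⟩, ?_, ?_⟩
  · show mcoord γ (coords τ) ∈ W
    rw [mcoord_coords]; exact hτ
  · rintro z ⟨hz1, hz2⟩
    apply DifferentiableAt.differentiableWithinAt
    apply DifferentiableAt.comp
    · exact (hF _ hz2).differentiableAt (hW.mem_nhds hz2)
    · exact diff_mcoord γ hz1
  · rintro σ ⟨-, hσ⟩
    exact hf (γ • σ) hσ

end Pool.Agent.Q60.TM
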