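import Pool.Agent.Q60.TM.Siegel
import Mathlib.Analysis.Calculus.FDeriv.Basic
import Mathlib.Analysis.SpecialFunctions.Exp
import Mathlib.Analysis.SpecialFunctions.Trigonometric.Basic
import Mathlib.Topology.Algebra.InfiniteSum.Basic
import Mathlib.GroupTheory.GroupAction.Defs
import Mathlib.Topology.Constructions

/-!
# The theta level two group, its quotient, and the second order theta constants
-/

set_option autoImplicit false

open Matrix Complex

namespace Pool.Agent.Q60.TM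

/-- `γ ≡ 1 mod 2`. -/
def IsLevelTwo {g : ℕ} (γ : Sp g) : Prop :=
  (∀ i j, (2 : ℤ) ∣ blkA γ i j - (1 : Matrix (Fin g) (Fin g) ℤ) i j) ∧
  (∀ i j, (2 : ℤ) ∣ blkB γ i j) ∧ (∀ i j, (2 : ℤ) ∣ blkC γ i j) ∧
  (∀ i j, (2 : ℤ) ∣ blkD γ i j - (1 : Matrix (Fin g) (Fin g) ℤ) i j)

variable {g : ℕ}

lemma exists_two_smul {M : Matrix (Fin g) (Fin g) ℤ} (h : ∀ i j, (2 : ℤ) ∣ M i j) :
    ∃ M' : Matrix (Fin g) (Fin g) ℤ, M = (2 : ℤ) • M' := by
  choose f hf using h
  exact ⟨Matrix.of f, by ext i j; simp [hf i j]⟩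

lemma isLevelTwo_iff (γ : Sp g) : IsLevelTwo γ ↔ ∃ a b c d : Matrix (Fin g) (Fin g) ℤ,
    blkA γ = 1 + (2 : ℤ) • a ∧ blkB γ = (2 : ℤ) • b ∧ blkC γ = (2 : ℤ) • c ∧
    blkD γ = 1 + (2 : ℤ) • d := by
  constructor
  · rintro ⟨h1, h2, h3, h4⟩
    obtain ⟨a, ha⟩ := exists_two_smul (M := blkA γ - 1) (fun i j => by simpa using h1 i j)
    obtain ⟨b, hb⟩ := exists_two_smul h2
    obtain ⟨c, hc⟩ := exists_two_smul h3
    obtain ⟨d, hd⟩ := exists_two_smul (M := blkD γ - 1) (fun i j => by simpa using h4 i j)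
    exact ⟨a, b, c, d, by rw [← ha]; abel, hb, hc, by rw [← hd]; abel⟩
  · rintro ⟨a, b, c, d, h1, h2, h3, h4⟩
    refine ⟨fun i j => ?_, fun i j => ?_, fun i j => ?_, fun i j => ?_⟩
    · rw [h1]; exact ⟨a i j, by simp only [Matrix.add_apply, Matrix.smul_apply, smul_eq_mul]; ring⟩
    · rw [h2]; exact ⟨b i j, by simp⟩
    · rw [h3]; exact ⟨c i j, by simp⟩
    · rw [h4]; exact ⟨d i j, by simp only [Matrix.add_apply, Matrix.smul_apply, smul_eq_mul]; ring⟩

lemma isLevelTwo_one : IsLevelTwo (1 : Sp g) := by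
  obtain ⟨h1, h2, h3, h4⟩ := blk_one (g := g)
  rw [isLevelTwo_iff]
  exact ⟨0, 0, 0, 0, by rw [h1]; simp, by rw [h2]; simp, by rw [h3]; simp, by rw [h4]; simp⟩

lemma blk_inv (γ : Sp g) : blkA γ⁻¹ = (blkD γ)ᵀ ∧ blkB γ⁻¹ = -(blkB γ)ᵀ ∧
    blkC γ⁻¹ = -(blkC γ)ᵀ ∧ blkD γ⁻¹ = (blkA γ)ᵀ := by
  have h : (γ⁻¹).1 = fromBlocks (blkD γ)ᵀ (-(blkB γ)ᵀ) (-(blkC γ)ᵀ) (blkA γ)ᵀ := by
    rw [SymplecticGroup.coe_inv, coe_eq_fromBlocks γ, J, fromBlocks_transpose, fromBlocks_neg,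
      fromBlocks_multiply, fromBlocks_multiply]
    simp
  refine ⟨?_, ?_, ?_, ?_⟩
  · rw [blkA, h, toBlocks_fromBlocks₁₁]
  · rw [blkB, h, toBlocks_fromBlocks₁₂]
  · rw [blkC, h, toBlocks_fromBlocks₂₁]
  · rw [blkD, h, toBlocks_fromBlocks₂₂]

lemma diag_iff {γ : Sp g} (h : IsLevelTwo γ) (i : Fin g) :
    ((4 : ℤ) ∣ (blkA γ * (blkB γ)ᵀ) i i ↔ (4 : ℤ) ∣ blkB γ i i) ∧
    ((4 : ℤ) ∣ (blkC γ * (blkD γ)ᵀ) i i ↔ (4 : ℤ) ∣ blkC γ i i) := by
  obtain ⟨a, b, c, d, h1, h2, h3, h4⟩ := (isLevelTwo_iff γ).1 h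
  constructor
  · have : (blkA γ * (blkB γ)ᵀ) i i = blkB γ i i + 4 * (a * bᵀ) i i := by
      rw [h1, h2, Matrix.transpose_smul, Matrix.add_mul, Matrix.one_mul, Matrix.smul_mul,
        Matrix.mul_smul]
      simp only [Matrix.add_apply, Matrix.smul_apply, smul_eq_mul, Matrix.transpose_apply]
      ring
    rw [this]
    constructor
    · intro hh
      have := dvd_sub hh (Dvd.intro ((a * bᵀ) i i) rfl : (4 : ℤ) ∣ 4 * (a * bᵀ) i i)
      simpa using this
    · intro hh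
      exact dvd_add hh (Dvd.intro _ rfl)
  · have : (blkC γ * (blkD γ)ᵀ) i i = blkC γ i i + 4 * (c * dᵀ) i i := by
      rw [h3, h4, Matrix.transpose_add, Matrix.transpose_smul, Matrix.transpose_one,
        Matrix.mul_add, Matrix.mul_one, Matrix.smul_mul, Matrix.mul_smul]
      simp only [Matrix.add_apply, Matrix.smul_apply, smul_eq_mul, Matrix.transpose_apply]
      ring
    rw [this]
    constructor
    · intro hh
      have := dvd_sub hh (Dvd.intro ((c * dᵀ) i i) rfl : (4 : ℤ) ∣ 4 * (c * dᵀ) i i)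
      simpa using this
    · intro hh
      exact dvd_add hh (Dvd.intro _ rfl)

/-- `Γ_g(2,4)`: the matrices `γ ≡ 1 mod 2` in `Sp(2g, ℤ)` such that the diagonals of `a bᵀ` and of
`c dᵀ` are divisible by four. -/
def Gamma24 (g : ℕ) : Subgroup (Sp g) where
  carrier := {γ | IsLevelTwo γ ∧ (∀ i, (4 : ℤ) ∣ (blkA γ * (blkB γ)ᵀ) i i) ∧
    ∀ i, (4 : ℤ) ∣ (blkC γ * (blkD γ)ᵀ) i i}
  mul_mem' := by
    rintro γ γ' ⟨h, hb, hc⟩ ⟨h', hb', hc'⟩
    have hb1 := fun i => ((diag_iff h i).1).1 (hb i)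
    have hb1' := fun i => ((diag_iff h' i).1).1 (hb' i)
    have hc1 := fun i => ((diag_iff h i).2).1 (hc i)
    have hc1' := fun i => ((diag_iff h' i).2).1 (hc' i)
    obtain ⟨a, b, c, d, e1, e2, e3, e4⟩ := (isLevelTwo_iff γ).1 h
    obtain ⟨a', b', c', d', e1', e2', e3', e4'⟩ := (isLevelTwo_iff γ').1 h'
    obtain ⟨m1, m2, m3, m4⟩ := blk_mul γ γ'
    have k2 : blkB (γ * γ') = blkB γ + blkB γ' + (4 : ℤ) • (a * b' + b * d') := by
      rw [m2, e1, e2, e2', e4']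
      noncomm_ring
    have k3 : blkC (γ * γ') = blkC γ + blkC γ' + (4 : ℤ) • (c * a' + d * c') := by
      rw [m3, e1', e3, e3', e4]
      noncomm_ring
    have hl : IsLevelTwo (γ * γ') := by
      rw [isLevelTwo_iff]
      refine ⟨a + a' + (2 : ℤ) • (a * a') + (2 : ℤ) • (b * c'),
        b + b' + (2 : ℤ) • (a * b' + b * d'), c + c' + (2 : ℤ) • (c * a' + d * c'),
        d + d' + (2 : ℤ) • (d * d') + (2 : ℤ) • (c * b'), ?_, ?_, ?_, ?_⟩
      · rw [m1, e1, e1', e2, e3']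
        noncomm_ring
      · rw [k2, e2, e2']
        module
      · rw [k3, e3, e3']
        module
      · rw [m4, e4, e4', e3, e2']
        noncomm_ring
    refine ⟨hl, fun i => ((diag_iff hl i).1).2 ?_, fun i => ((diag_iff hl i).2).2 ?_⟩
    · rw [k2]
      exact dvd_add (dvd_add (hb1 i) (hb1' i)) (Dvd.intro _ rfl)
    · rw [k3]
      exact dvd_add (dvd_add (hc1 i) (hc1' i)) (Dvd.intro _ rfl)
  one_mem' := by
    refine ⟨isLevelTwo_one, fun i => ?_, fun i => ?_⟩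
    · rw [(blk_one (g := g)).2.1]; simp
    · rw [(blk_one (g := g)).2.2.1]; simp
  inv_mem' := by
    rintro γ ⟨h, hb, hc⟩
    have hb1 := fun i => ((diag_iff h i).1).1 (hb i)
    have hc1 := fun i => ((diag_iff h i).2).1 (hc i)
    obtain ⟨a, b, c, d, e1, e2, e3, e4⟩ := (isLevelTwo_iff γ).1 h
    obtain ⟨m1, m2, m3, m4⟩ := blk_inv γ
    have hl : IsLevelTwo γ⁻¹ := by
      rw [isLevelTwo_iff]
      refine ⟨dᵀ, -bᵀ, -cᵀ, aᵀ, ?_, ?_, ?_, ?_⟩
      · rw [m1, e4, Matrix.transpose_add, Matrix.transpose_smul, Matrix.transpose_one]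
      · rw [m2, e2, Matrix.transpose_smul, smul_neg]
      · rw [m3, e3, Matrix.transpose_smul, smul_neg]
      · rw [m4, e1, Matrix.transpose_add, Matrix.transpose_smul, Matrix.transpose_one]
    refine ⟨hl, fun i => ((diag_iff hl i).1).2 ?_, fun i => ((diag_iff hl i).2).2 ?_⟩
    · rw [m2]
      simpa using hb1 i
    · rw [m3]
      simpa using hc1 i

/-- `𝒜_g(2,4)`, the quotient of the Siegel upper half space by `Γ_g(2,4)`. -/
abbrev A24 (g : ℕ) : Type := MulAction.orbitRel.Quotient (Gamma24 g) (SiegelSpace g)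

/-- The projection of the Siegel upper half space to `𝒜_g(2,4)`. -/
noncomputable def proj {g : ℕ} (τ : SiegelSpace g) : A24 g := Quotient.mk _ τ

instance (g : ℕ) : TopologicalSpace (A24 g) :=
  inferInstanceAs (TopologicalSpace (Quotient (MulAction.orbitRel (Gamma24 g) (SiegelSpace g))))

/-- The coordinates of `τ`, a point of `ℂ ^ (g × g)`. -/
def coords {g : ℕ} (τ : SiegelSpace g) : Fin g → Fin g → ℂ := fun i j => τ.1 i j

/-- A function on the Siegel upper half space is holomorphic at `τ` if near `τ` it is the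
restriction of a holomorphic function of the `g²` coordinates. -/
def HolAt {g : ℕ} (f : SiegelSpace g → ℂ) (τ : SiegelSpace g) : Prop :=
  ∃ (W : Set (Fin g → Fin g → ℂ)) (F : (Fin g → Fin g → ℂ) → ℂ), IsOpen W ∧ coords τ ∈ W ∧
    DifferentiableOn ℂ F W ∧ ∀ σ : SiegelSpace g, coords σ ∈ W → f σ = F (coords σ)

/-- A function `f` on `𝒜_g(2,4)` is holomorphic near the point `x`: on the preimage of an open
neighbourhood `V` of `x` its composition with the projection is holomorphic. This is the structure of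
a complex analytic space on `𝒜_g(2,4)`. -/
def HolNear {g : ℕ} (f : A24 g → ℂ) (x : A24 g) : Prop :=
  ∃ V : Set (A24 g), IsOpen V ∧ x ∈ V ∧ ∀ τ : SiegelSpace g, proj τ ∈ V → HolAt (f ∘ proj) τ

/-- The theta function with characteristics `ε`, `δ`. -/
noncomputable def theta {g : ℕ} (ε δ : Fin g → ℂ) (τ : Matrix (Fin g) (Fin g) ℂ) (z : Fin g → ℂ) :
    ℂ :=
  ∑' n : Fin g → ℤ, cexp (Real.pi * I * (∑ i, ∑ j, (n i + ε i) * τ i j * (n j + ε j) +
    2 * ∑ i, (n i + ε i) * (z i + δ i)))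

/-- The vector of the `2 ^ g` second order theta constants `Θ[ε](τ) = θ[ε, 0](2 τ, 0)`; the class
`ε` in `(1/2) ℤ^g / ℤ^g` is represented by `e / 2` with `e i ∈ {0, 1}`. -/
noncomputable def thetaVec {g : ℕ} (τ : SiegelSpace g) : (Fin g → Fin 2) → ℂ := fun e =>
  theta (fun i => ((e i : ℕ) : ℂ) / 2) 0 ((2 : ℂ) • τ.1) 0

/-- The theta map `Th` is an isomorphism onto its image near the image `proj τ` of `τ`, in the sense
that every holomorphic function near `proj τ` is the composition with `Th` of a holomorphic function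
near `Th (proj τ)` on the projective space, that is, of a holomorphic function `F` of `2 ^ g`
variables which is homogeneous of degree zero. (The germs at `x` of holomorphic functions on the
image of `Th` are restrictions of germs of holomorphic functions on the projective space.) -/
def IsImmersionAt {g : ℕ} (τ : SiegelSpace g) : Prop :=
  ∀ f : A24 g → ℂ, HolNear f (proj τ) →
    ∃ (W : Set ((Fin g → Fin 2) → ℂ)) (F : ((Fin g → Fin 2) → ℂ) → ℂ), IsOpen W ∧
      thetaVec τ ∈ W ∧ DifferentiableOn ℂ F W ∧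
      (∀ c : ℂ, c ≠ 0 → ∀ w ∈ W, c • w ∈ W ∧ F (c • w) = F w) ∧
      ∃ V : Set (A24 g), IsOpen V ∧ proj τ ∈ V ∧
        ∀ σ : SiegelSpace g, proj σ ∈ V → thetaVec σ ∈ W ∧ f (proj σ) = F (thetaVec σ)

/-- The theta map `Th` is injective. -/
def IsInjective (g : ℕ) : Prop :=
  ∀ τ τ' : SiegelSpace g, (∃ c : ℂ, c ≠ 0 ∧ thetaVec τ' = c • thetaVec τ) → proj τ = proj τ'

/-- The theta map `Th` is an embedding. -/
def IsEmbedding (g : ℕ) : Prop :=
  IsInjective g ∧ ∀ τ : SiegelSpace g, IsImmersionAt τ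

end Pool.Agent.Q60.TM
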