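import Pool.Agent.Q60.TM.Analytic
import Mathlib.Algebra.Order.Chebyshev
import Mathlib.Topology.Separation.Hausdorff
import Mathlib.Data.Set.Finite.Lattice

/-!
# The action of `Sp(2g, ℤ)` is properly discontinuous
-/

set_option autoImplicit false

open Matrix Complex

namespace Pool.Agent.Q60.TM

variable {g : ℕ}

/-- The entries of `τ` are bounded by `R` and the imaginary part is at least `m`. -/
def Bd (R m : ℝ) (τ : Matrix (Fin g) (Fin g) ℂ) : Prop :=
  (∀ i j, ‖τ i j‖ ≤ R) ∧ ∀ x : Fin g → ℝ, m * ∑ i, x i ^ 2 ≤ imForm τ x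

lemma bound_pair (R m K : ℝ) (hm : 0 < m) (hR : 0 ≤ R) (hK : 0 ≤ K) :
    ∃ K' : ℝ, ∀ (τ : Matrix (Fin g) (Fin g) ℂ), Bd R m τ →
      ∀ C D : Matrix (Fin g) (Fin g) ℤ, (∀ i j, ‖(toC C * τ + toC D) i j‖ ≤ K) →
        ∀ i j, |(C i j : ℝ)| ≤ K' ∧ |(D i j : ℝ)| ≤ K' := by
  set K1 : ℝ := g * K ^ 2 / m ^ 2 + 1 with hK1
  have hK1pos : 0 ≤ K1 := by positivity
  refine ⟨K1 + (K + g * (K1 * R)), ?_⟩
  intro τ hτ C D hM
  have hC : ∀ i j, |(C i j : ℝ)| ≤ K1 := by
    intro i j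
    set r : Fin g → ℝ := fun k => (C i k : ℝ) with hr
    set v : Fin g → ℝ := fun l => ((toC C * τ + toC D) i l).im with hv
    have hvr : ∀ l, v l = ∑ k, r k * (τ k l).im := by
      intro l
      simp only [hv, hr, Matrix.add_apply, Matrix.mul_apply, toC, Matrix.map_apply,
        Complex.add_im, Complex.im_sum, Complex.mul_im, Complex.intCast_re, Complex.intCast_im,
        zero_mul, add_zero]
    have h1 : ∑ l, v l * r l = imForm τ r := by
      unfold imForm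
      rw [Finset.sum_comm]
      refine Finset.sum_congr rfl fun l _ => ?_
      rw [hvr l, Finset.sum_mul]
    have h2 := hτ.2 r
    set S := ∑ k, r k ^ 2 with hS
    have hS0 : 0 ≤ S := Finset.sum_nonneg fun k _ => sq_nonneg _
    have h3 : (∑ l, v l * r l) ^ 2 ≤ (∑ l, v l ^ 2) * S :=
      Finset.sum_mul_sq_le_sq_mul_sq _ _ _
    have h4 : ∑ l, v l ^ 2 ≤ g * K ^ 2 := by
      have : ∀ l ∈ (Finset.univ : Finset (Fin g)), v l ^ 2 ≤ K ^ 2 := by
        intro l _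
        apply sq_le_sq'
        · have := (abs_le.1 ((Complex.abs_im_le_norm _).trans (hM i l))).1
          exact this
        · exact (abs_le.1 ((Complex.abs_im_le_norm _).trans (hM i l))).2
      calc ∑ l, v l ^ 2 ≤ ∑ _l : Fin g, K ^ 2 := Finset.sum_le_sum this
        _ = g * K ^ 2 := by simp
    rw [h1] at h3
    have h5 : (m * S) ^ 2 ≤ (imForm τ r) ^ 2 := by
      apply pow_le_pow_left₀ (by positivity) h2
    have h6 : (m * S) ^ 2 ≤ g * K ^ 2 * S :=
      h5.trans (h3.trans (mul_le_mul_of_nonneg_right h4 hS0))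
    have h7 : S ≤ g * K ^ 2 / m ^ 2 := by
      by_cases hS1 : S = 0
      · rw [hS1]; positivity
      · have hSp : 0 < S := lt_of_le_of_ne hS0 (Ne.symm hS1)
        rw [le_div_iff₀ (by positivity)]
        have : (S * m ^ 2) * S ≤ (g * K ^ 2) * S := by nlinarith
        exact le_of_mul_le_mul_right this hSp
    have h8 : (C i j : ℝ) ^ 2 ≤ S := by
      have : r j ^ 2 ≤ S := Finset.single_le_sum (f := fun k => r k ^ 2)
        (fun k _ => sq_nonneg (r k)) (Finset.mem_univ j)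
      exact this
    have h9 : |(C i j : ℝ)| ≤ (C i j : ℝ) ^ 2 + 1 := by
      rw [abs_le]
      constructor <;> nlinarith [sq_nonneg ((C i j : ℝ) - 1), sq_nonneg ((C i j : ℝ) + 1)]
    linarith
  intro i j
  refine ⟨(hC i j).trans (by have : 0 ≤ K + g * (K1 * R) := by positivity
                             linarith), ?_⟩
  have e1 : ((D i j : ℤ) : ℂ) = (toC C * τ + toC D) i j - ∑ k, (C i k : ℂ) * τ k j := by
    simp [Matrix.add_apply, Matrix.mul_apply, toC]
  have e2 : |(D i j : ℝ)| = ‖((D i j : ℤ) : ℂ)‖ := by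
    rw [Complex.norm_intCast]
  rw [e2, e1]
  have e3 : ‖∑ k, (C i k : ℂ) * τ k j‖ ≤ g * (K1 * R) := by
    calc ‖∑ k, (C i k : ℂ) * τ k j‖ ≤ ∑ k : Fin g, K1 * R := by
          apply norm_sum_le_of_le
          intro k _
          rw [norm_mul, Complex.norm_intCast]
          exact mul_le_mul (hC i k) (hτ.1 k j) (norm_nonneg _) hK1pos
      _ = g * (K1 * R) := by simp
  calc _ ≤ ‖(toC C * τ + toC D) i j‖ + ‖∑ k, (C i k : ℂ) * τ k j‖ := norm_sub_le _ _
    _ ≤ K + g * (K1 * R) := add_le_add (hM i j) e3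
    _ ≤ _ := by linarith

lemma hForm_ge {R m : ℝ} {τ : Matrix (Fin g) (Fin g) ℂ} (h : Bd R m τ) (v : Fin g → ℂ) :
    m * ∑ i, ‖v i‖ ^ 2 ≤ hForm τ v := by
  have h1 := h.2 (fun i => (v i).re)
  have h2 := h.2 (fun i => (v i).im)
  have h3 : ∑ i, ‖v i‖ ^ 2 = ∑ i, (v i).re ^ 2 + ∑ i, (v i).im ^ 2 := by
    rw [← Finset.sum_add_distrib]
    refine Finset.sum_congr rfl fun i _ => ?_
    rw [Complex.sq_norm, Complex.normSq_apply]; ring
  unfold hForm
  rw [h3, mul_add]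
  exact add_le_add h1 h2

lemma finite_gamma (R m : ℝ) (hm : 0 < m) (hR : 0 ≤ R) :
    {γ : Sp g | ∃ τ : SiegelSpace g, Bd R m τ.1 ∧ Bd R m (γ • τ).1}.Finite := by
  set K1 : ℝ := R / m + 1 with hK1
  have hK1pos : 0 ≤ K1 := by positivity
  set K2 : ℝ := g * (R * K1) with hK2
  have hK2pos : 0 ≤ K2 := by positivity
  obtain ⟨B1, hB1⟩ := bound_pair (g := g) R m K1 hm hR hK1pos
  obtain ⟨B2, hB2⟩ := bound_pair (g := g) R m K2 hm hR hK2pos
  set N : ℤ := ⌈max B1 B2⌉ with hN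
  have hfin : {M : Matrix (Fin g ⊕ Fin g) (Fin g ⊕ Fin g) ℤ | ∀ i j, M i j ∈ Set.Icc (-N) N}.Finite := by
    have h1 : ∀ _i : Fin g ⊕ Fin g, {f : (Fin g ⊕ Fin g) → ℤ | ∀ j, f j ∈ Set.Icc (-N) N}.Finite :=
      fun _ => Set.Finite.pi' fun _ => Set.finite_Icc _ _
    exact Set.Finite.pi' h1
  refine Set.Finite.subset (hfin.preimage (Subtype.val_injective.injOn)) ?_
  rintro γ ⟨τ, h1, h2⟩
  have hM : ∀ i j, ‖den γ τ.1 i j‖ ≤ K1 := by
    intro i j
    have e1 := hForm_moeb γ τ (Pi.single j 1)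
    have e2 := hForm_ge h2 (den γ τ.1 *ᵥ Pi.single j 1)
    rw [smul_val, e1] at e2
    have e3 : hForm τ.1 (Pi.single j 1 : Fin g → ℂ) = (τ.1 j j).im := by
      have : hForm τ.1 (Pi.single j 1 : Fin g → ℂ) = imForm τ.1 (Pi.single j 1) := by
        rw [← hForm_ofReal]
        congr 1
        funext k
        by_cases hk : k = j
        · subst hk; simp
        · simp [hk]
      rw [this]
      unfold imForm
      simp [Pi.single_apply]
    have e4 : (τ.1 j j).im ≤ R := (Complex.im_le_norm _).trans (h1.1 j j)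
    have e5 : ‖den γ τ.1 i j‖ ^ 2 ≤ ∑ k, ‖(den γ τ.1 *ᵥ Pi.single j 1) k‖ ^ 2 := by
      have := Finset.single_le_sum (f := fun k => ‖(den γ τ.1 *ᵥ Pi.single j 1) k‖ ^ 2)
        (fun k _ => sq_nonneg _) (Finset.mem_univ i)
      simpa [Matrix.mulVec_single] using this
    rw [e3] at e2
    have e6 : m * ‖den γ τ.1 i j‖ ^ 2 ≤ R := (mul_le_mul_of_nonneg_left e5 hm.le).trans (e2.trans e4)
    have e7 : ‖den γ τ.1 i j‖ ^ 2 ≤ R / m := by
      rw [le_div_iff₀ hm]; linarith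
    nlinarith [sq_nonneg (‖den γ τ.1 i j‖ - 1), norm_nonneg (den γ τ.1 i j)]
  have hN' : ∀ i j, ‖num γ τ.1 i j‖ ≤ K2 := by
    intro i j
    rw [← moeb_mul_den, Matrix.mul_apply]
    calc ‖∑ k, moeb γ τ.1 i k * den γ τ.1 k j‖ ≤ ∑ k : Fin g, R * K1 := by
          apply norm_sum_le_of_le
          intro k _
          rw [norm_mul]
          exact mul_le_mul (h2.1 i k) (hM k j) (norm_nonneg _) hR
      _ = K2 := by simp [hK2]
  have b1 := hB1 τ.1 h1 (blkC γ) (blkD γ) hM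
  have b2 := hB2 τ.1 h1 (blkA γ) (blkB γ) hN'
  have key : ∀ z : ℤ, |(z : ℝ)| ≤ max B1 B2 → z ∈ Set.Icc (-N) N := by
    intro z hz
    rw [Set.mem_Icc, ← abs_le]
    have : (|z| : ℤ) ≤ N := by
      have h3 : ((|z| : ℤ) : ℝ) ≤ (N : ℝ) := by
        push_cast
        exact hz.trans (Int.le_ceil _)
      exact_mod_cast h3
    exact this
  show ∀ i j, γ.1 i j ∈ Set.Icc (-N) N
  rintro (i | i) (j | j)
  · exact key _ ((b2 i j).1.trans (le_max_right _ _))
  · exact key _ ((b2 i j).2.trans (le_max_right _ _))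
  · exact key _ ((b1 i j).1.trans (le_max_left _ _))
  · exact key _ ((b1 i j).2.trans (le_max_left _ _))

lemma bd_near {R m : ℝ} {τ₀ : SiegelSpace g} (hm : 0 < m) (h : Bd R m τ₀.1) :
    ∃ U : Set (SiegelSpace g), IsOpen U ∧ τ₀ ∈ U ∧ ∀ τ ∈ U, Bd (R + m) (m / 2) τ.1 := by
  set δ : ℝ := m / (2 * (g + 1)) with hδ
  have hδ0 : 0 < δ := by positivity
  have hδm : δ ≤ m := by
    rw [hδ, div_le_iff₀ (by positivity)]
    nlinarith [(Nat.cast_nonneg g : (0 : ℝ) ≤ g)]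
  refine ⟨⋂ i, ⋂ j, {τ : SiegelSpace g | ‖τ.1 i j - τ₀.1 i j‖ < δ}, ?_, ?_, ?_⟩
  · refine isOpen_iInter_of_finite fun i => isOpen_iInter_of_finite fun j => ?_
    apply isOpen_lt _ continuous_const
    apply Continuous.norm
    apply Continuous.sub _ continuous_const
    have : Continuous fun τ : SiegelSpace g => coords τ i j :=
      (continuous_apply j).comp ((continuous_apply i).comp continuous_coords)
    exact this
  · simp only [Set.mem_iInter, Set.mem_ofPred_eq, sub_self, norm_zero]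
    intro i j
    exact hδ0
  · intro τ hτ
    simp only [Set.mem_iInter, Set.mem_ofPred_eq] at hτ
    refine ⟨fun i j => ?_, fun x => ?_⟩
    · have h1 : ‖τ.1 i j‖ ≤ ‖τ₀.1 i j‖ + ‖τ.1 i j - τ₀.1 i j‖ := by
        have := norm_add_le (τ₀.1 i j) (τ.1 i j - τ₀.1 i j)
        simpa using this
      have := h.1 i j
      have := hτ i j
      linarith
    · have h1 := h.2 x
      have h2 : imForm τ.1 x - imForm τ₀.1 x = ∑ i, ∑ j, x i * (τ.1 i j - τ₀.1 i j).im * x j := by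
        unfold imForm
        rw [← Finset.sum_sub_distrib]
        refine Finset.sum_congr rfl fun i _ => ?_
        rw [← Finset.sum_sub_distrib]
        refine Finset.sum_congr rfl fun j _ => ?_
        rw [Complex.sub_im]; ring
      have h3 : |∑ i, ∑ j, x i * (τ.1 i j - τ₀.1 i j).im * x j| ≤ δ * (∑ i, |x i|) ^ 2 := by
        calc |∑ i, ∑ j, x i * (τ.1 i j - τ₀.1 i j).im * x j|
            ≤ ∑ i, ∑ j, |x i| * δ * |x j| := by
              refine (Finset.abs_sum_le_sum_abs _ _).trans (Finset.sum_le_sum fun i _ => ?_)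
              refine (Finset.abs_sum_le_sum_abs _ _).trans (Finset.sum_le_sum fun j _ => ?_)
              rw [abs_mul, abs_mul]
              apply mul_le_mul_of_nonneg_right _ (abs_nonneg _)
              apply mul_le_mul_of_nonneg_left _ (abs_nonneg _)
              exact (Complex.abs_im_le_norm _).trans (hτ i j).le
          _ = δ * (∑ i, |x i|) ^ 2 := by
              rw [sq, Finset.sum_mul_sum, Finset.mul_sum]
              refine Finset.sum_congr rfl fun i _ => ?_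
              rw [Finset.mul_sum]
              refine Finset.sum_congr rfl fun j _ => ?_
              ring
      have h4 : (∑ i, |x i|) ^ 2 ≤ g * ∑ i, x i ^ 2 := by
        have := sq_sum_le_card_mul_sum_sq (s := (Finset.univ : Finset (Fin g))) (f := fun i => |x i|)
        simpa [sq_abs] using this
      have h5 : δ * (∑ i, |x i|) ^ 2 ≤ m / 2 * ∑ i, x i ^ 2 := by
        have hS : 0 ≤ ∑ i, x i ^ 2 := Finset.sum_nonneg fun i _ => sq_nonneg _
        have h6 : δ * g ≤ m / 2 := by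
          rw [hδ, div_mul_eq_mul_div, div_le_div_iff₀ (by positivity) (by norm_num)]
          nlinarith [(Nat.cast_nonneg g : (0 : ℝ) ≤ g)]
        calc δ * (∑ i, |x i|) ^ 2 ≤ δ * (g * ∑ i, x i ^ 2) := mul_le_mul_of_nonneg_left h4 hδ0.le
          _ = (δ * g) * ∑ i, x i ^ 2 := by ring
          _ ≤ m / 2 * ∑ i, x i ^ 2 := mul_le_mul_of_nonneg_right h6 hS
      have h7 := (abs_le.1 h3).1
      rw [← h2] at h7
      linarith

/-- The action is properly discontinuous at `τ₀`. -/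
lemma exists_slice {R m : ℝ} {τ₀ : SiegelSpace g} (hm : 0 < m) (hR : 0 ≤ R) (h : Bd R m τ₀.1) :
    ∃ U : Set (SiegelSpace g), IsOpen U ∧ τ₀ ∈ U ∧
      ∀ γ : Sp g, ∀ τ ∈ U, γ • τ ∈ U → γ • τ₀ = τ₀ := by
  obtain ⟨U₀, hU₀, hτU₀, hB⟩ := bd_near hm h
  have hfin := finite_gamma (g := g) (R + m) (m / 2) (by positivity) (by positivity)
  set Φ := {γ : Sp g | ∃ τ : SiegelSpace g, Bd (R + m) (m / 2) τ.1 ∧ Bd (R + m) (m / 2) (γ • τ).1}
    with hΦ
  have hsep : ∀ γ : Sp g, ∃ V : Set (SiegelSpace g), IsOpen V ∧ τ₀ ∈ V ∧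
      (γ • τ₀ ≠ τ₀ → ∀ τ ∈ V, γ • τ ∉ V) := by
    intro γ
    by_cases hγ : γ • τ₀ = τ₀
    · exact ⟨Set.univ, isOpen_univ, trivial, fun h => absurd hγ h⟩
    · obtain ⟨V₁, V₂, o1, o2, m1, m2, hd⟩ := t2_separation (Ne.symm hγ)
      refine ⟨V₁ ∩ (fun τ => γ • τ) ⁻¹' V₂, o1.inter (o2.preimage (continuous_smul' γ)),
        ⟨m1, m2⟩, fun _ τ hτ hτ' => ?_⟩
      exact Set.disjoint_left.1 hd hτ'.1 hτ.2
  choose V hVo hVm hV using hsep
  refine ⟨U₀ ∩ ⋂ γ ∈ Φ, V γ, hU₀.inter (hfin.isOpen_biInter fun γ _ => hVo γ),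
    ⟨hτU₀, Set.mem_iInter₂.2 fun γ _ => hVm γ⟩, ?_⟩
  intro γ τ hτ hτ'
  by_contra hne
  have hγ : γ ∈ Φ := ⟨τ, hB τ hτ.1, hB _ hτ'.1⟩
  exact hV γ hne τ (Set.mem_iInter₂.1 hτ.2 γ hγ) (Set.mem_iInter₂.1 hτ'.2 γ hγ)

end Pool.Agent.Q60.TM
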