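import Pool.Agent.Q60.TM.Theta

/-!
# The theta map is not an immersion at products
-/

set_option autoImplicit false

open Matrix Complex Filter Topology

namespace Pool.Agent.Q60.TM

variable {g : ℕ}

lemma HolAt.congr {u v : SiegelSpace g → ℂ} {τ : SiegelSpace g} (h : HolAt u τ)
    {N : Set (SiegelSpace g)} (hN : IsOpen N) (hτ : τ ∈ N) (huv : ∀ σ ∈ N, v σ = u σ) :
    HolAt v τ := by
  obtain ⟨W, F, hW, hτW, hF, hu⟩ := h
  obtain ⟨N', hN', rfl⟩ := isInducing_coords.isOpen_iff.1 hN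
  refine ⟨W ∩ N', F, hW.inter hN', ⟨hτW, hτ⟩, hF.mono Set.inter_subset_left, ?_⟩
  rintro σ ⟨h1, h2⟩
  rw [huv σ h2, hu σ h1]

instance : ContinuousConstSMul (Gamma24 g) (SiegelSpace g) :=
  ⟨fun γ => continuous_smul' γ.1⟩

lemma proj_eq_iff (τ τ' : SiegelSpace g) : proj τ = proj τ' ↔ ∃ γ ∈ Gamma24 g, γ • τ' = τ := by
  unfold proj
  rw [Quotient.eq, MulAction.orbitRel_apply, MulAction.mem_orbit_iff]
  constructor
  · rintro ⟨γ, h⟩
    exact ⟨γ.1, γ.2, h⟩
  · rintro ⟨γ, hγ, h⟩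
    exact ⟨⟨γ, hγ⟩, h⟩

lemma isOpenMap_proj : IsOpenMap (proj : SiegelSpace g → A24 g) :=
  isOpenMap_quotient_mk'_mul

lemma continuous_proj : Continuous (proj : SiegelSpace g → A24 g) := continuous_quotient_mk'

/-- the index with value `k` -/
def ix (hg : 4 ≤ g) (k : ℕ) (hk : k < 4) : Fin g := ⟨k, lt_of_lt_of_le hk hg⟩

/-- the `2 × 2` minor in the off-diagonal block -/
noncomputable def minor (hg : 4 ≤ g) (τ : SiegelSpace g) : ℂ :=
  τ.1 (ix hg 0 (by norm_num)) (ix hg 2 (by norm_num)) * τ.1 (ix hg 1 (by norm_num)) (ix hg 3 (by norm_num)) -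
  τ.1 (ix hg 0 (by norm_num)) (ix hg 3 (by norm_num)) * τ.1 (ix hg 1 (by norm_num)) (ix hg 2 (by norm_num))

lemma minor_holAt (hg : 4 ≤ g) (τ : SiegelSpace g) : HolAt (minor hg) τ := by
  have hd : ∀ (i j : Fin g) (z : Fin g → Fin g → ℂ),
      DifferentiableAt ℂ (fun w : Fin g → Fin g → ℂ => w i j) z := by
    intro i j z
    have h1 : DifferentiableAt ℂ (fun w : Fin g → Fin g → ℂ => w i) z := differentiableAt_apply i z
    exact (differentiableAt_pi.1 h1) j
  refine ⟨Set.univ, fun z => z (ix hg 0 (by norm_num)) (ix hg 2 (by norm_num)) *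
    z (ix hg 1 (by norm_num)) (ix hg 3 (by norm_num)) - z (ix hg 0 (by norm_num))
    (ix hg 3 (by norm_num)) * z (ix hg 1 (by norm_num)) (ix hg 2 (by norm_num)), isOpen_univ,
    trivial, fun z _ => ?_, fun σ _ => rfl⟩
  exact (((hd _ _ z).mul (hd _ _ z)).sub ((hd _ _ z).mul (hd _ _ z))).differentiableWithinAt

lemma smul_of_diag {γ : Sp g} {ε : Fin g → ℤ} (hε : ∀ i, ε i = 1 ∨ ε i = -1)
    (hA : blkA γ = Matrix.diagonal ε) (hB : blkB γ = 0) (hC : blkC γ = 0)
    (hD : blkD γ = Matrix.diagonal ε) (τ : SiegelSpace g) (i j : Fin g) :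
    (γ • τ).1 i j = (ε i : ℂ) * τ.1 i j * (ε j : ℂ) := by
  have h1 := moeb_mul_den γ τ
  have h2 : (γ • τ).1 = moeb γ τ.1 := rfl
  rw [← h2] at h1
  unfold den num at h1
  rw [hA, hB, hC, hD, toC_zero, Matrix.zero_mul, zero_add, add_zero] at h1
  have h3 : toC (Matrix.diagonal ε) = Matrix.diagonal (fun i => (ε i : ℂ)) := by
    unfold toC
    rw [Matrix.diagonal_map (by simp)]
  rw [h3] at h1
  have h4 := congrFun (congrFun h1 i) j
  rw [Matrix.mul_diagonal, Matrix.diagonal_mul] at h4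
  have h5 : (ε j : ℂ) * (ε j : ℂ) = 1 := by
    rcases hε j with h | h <;> rw [h] <;> norm_num
  calc (γ • τ).1 i j = (γ • τ).1 i j * (ε j : ℂ) * (ε j : ℂ) := by rw [mul_assoc, h5, mul_one]
    _ = _ := by rw [h4]

lemma minor_invariant (hg : 4 ≤ g) {γ : Sp g} (hγ : γ ∈ Gamma24 g) (h : γ • tau0 g = tau0 g)
    (τ : SiegelSpace g) : minor hg (γ • τ) = minor hg τ := by
  obtain ⟨ε, h1, h2, hA, hB, hC, hD⟩ := stab hγ.1 h
  unfold minor
  simp only [smul_of_diag h1 hA hB hC hD]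
  have e1 : ε (ix hg 0 (by norm_num)) = ε (ix hg 1 (by norm_num)) := h2 _ _ (by simp [blk, ix])
  have e2 : ε (ix hg 2 (by norm_num)) = ε (ix hg 3 (by norm_num)) := h2 _ _ (by simp [blk, ix])
  rw [e1, e2]
  have s1 : (ε (ix hg 1 (by norm_num)) : ℂ) * (ε (ix hg 1 (by norm_num)) : ℂ) = 1 := by
    rcases h1 (ix hg 1 (by norm_num)) with h | h <;> rw [h] <;> norm_num
  have s2 : (ε (ix hg 3 (by norm_num)) : ℂ) * (ε (ix hg 3 (by norm_num)) : ℂ) = 1 := by
    rcases h1 (ix hg 3 (by norm_num)) with h | h <;> rw [h] <;> norm_num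
  linear_combination (τ.1 (ix hg 0 (by norm_num)) (ix hg 2 (by norm_num)) *
    τ.1 (ix hg 1 (by norm_num)) (ix hg 3 (by norm_num)) - τ.1 (ix hg 0 (by norm_num))
    (ix hg 3 (by norm_num)) * τ.1 (ix hg 1 (by norm_num)) (ix hg 2 (by norm_num))) *
    ((ε (ix hg 3 (by norm_num)) : ℂ) * (ε (ix hg 3 (by norm_num)) : ℂ) * s1 + s2)

/-- There is a holomorphic function near the image of `tau0` which lifts to the minor. -/
lemma exists_hol (hg : 4 ≤ g) : ∃ (U : Set (SiegelSpace g)) (f : A24 g → ℂ), IsOpen U ∧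
    tau0 g ∈ U ∧ HolNear f (proj (tau0 g)) ∧ ∀ τ ∈ U, f (proj τ) = minor hg τ := by
  classical
  obtain ⟨U, hU, hτU, hsl⟩ := exists_slice (τ₀ := tau0 g) lam_pos
    (by have := lam_pos; positivity) bd_tau0
  set f : A24 g → ℂ := fun x => if h : ∃ τ, τ ∈ U ∧ proj τ = x then minor hg h.choose else 0 with hf
  have key : ∀ τ ∈ U, f (proj τ) = minor hg τ := by
    intro τ hτ
    have hex : ∃ τ', τ' ∈ U ∧ proj τ' = proj τ := ⟨τ, hτ, rfl⟩
    have h1 : f (proj τ) = minor hg hex.choose := by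
      simp only [hf]
      rw [dif_pos hex]
    obtain ⟨h2, h3⟩ := hex.choose_spec
    rw [h1]
    obtain ⟨γ, hγ, h4⟩ := (proj_eq_iff _ _).1 h3
    have h5 : γ • tau0 g = tau0 g := hsl γ τ hτ (by rw [h4]; exact h2)
    rw [← h4]
    exact minor_invariant hg hγ h5 τ
  refine ⟨U, f, hU, hτU, ⟨proj '' U, isOpenMap_proj U hU, ⟨_, hτU, rfl⟩, ?_⟩, key⟩
  rintro τ ⟨τ₁, hτ₁, h1⟩
  obtain ⟨γ, hγ, h2⟩ := (proj_eq_iff _ _).1 h1
  refine HolAt.congr (u := fun σ => minor hg (γ • σ)) (HolAt.smul (minor_holAt hg _))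
    (hU.preimage (continuous_smul' γ)) (by show γ • τ ∈ U; rw [h2]; exact hτ₁) ?_
  intro σ hσ
  have h3 : proj (γ • σ) = proj σ := (proj_eq_iff _ _).2 ⟨γ, hγ, rfl⟩
  show f (proj σ) = _
  rw [← h3]
  exact key _ hσ

lemma continuous_curve (i j k l : Fin g) (κ : ℝ) : Continuous (curve i j k l κ) := by
  rw [isInducing_coords.continuous_iff]
  refine continuous_pi fun a => continuous_pi fun b => ?_
  show Continuous fun s : ℝ => (tau0mat g + (s : ℂ) • (Emat i j k l κ).map (fun x : ℝ => (x : ℂ))) a b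
  simp only [Matrix.add_apply, Matrix.smul_apply, smul_eq_mul]
  exact continuous_const.add (Complex.continuous_ofReal.mul continuous_const)

/-- the derivative of `F` in the direction of the second order term -/
lemma deriv_eq {i j k l : Fin g} (hi : blk i = true) (hj : blk j = false) (hk : blk k = true)
    (hl : blk l = false) {κ : ℝ} (hκ : |κ| ≤ 1) {F : ((Fin g → Fin 2) → ℂ) → ℂ}
    {F' : ((Fin g → Fin 2) → ℂ) →L[ℂ] ℂ} (hF : HasFDerivAt F F' (thetaVec (tau0 g))) {d : ℂ}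
    (hd : ∀ᶠ s : ℝ in 𝓝 0, F (thetaVec (curve i j k l κ s)) = ((s ^ 2 : ℝ) : ℂ) * d) :
    F' (Wv i j k l κ) = d := by
  have h0 : F (thetaVec (tau0 g)) = 0 := by
    have := hd.self_of_nhds
    rw [curve_zero] at this
    simpa using this
  have h1 := tendsto_theta hi hj hk hl hκ
  have hs2 : Tendsto (fun s : ℝ => ((s ^ 2 : ℝ) : ℂ)) (𝓝[≠] 0) (𝓝 0) := by
    have : Tendsto (fun s : ℝ => ((s ^ 2 : ℝ) : ℂ)) (𝓝 0) (𝓝 (((0 : ℝ) ^ 2 : ℝ) : ℂ)) :=
      (Complex.continuous_ofReal.comp (continuous_pow 2)).tendsto 0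
    simp only [ne_eq, OfNat.ofNat_ne_zero, not_false_eq_true, zero_pow, Complex.ofReal_zero] at this
    exact this.mono_left nhdsWithin_le_nhds
  have hdl : Tendsto (fun s : ℝ => thetaVec (curve i j k l κ s) - thetaVec (tau0 g)) (𝓝[≠] 0)
      (𝓝 0) := by
    have h2 := hs2.smul h1
    rw [zero_smul] at h2
    refine h2.congr' ?_
    filter_upwards [self_mem_nhdsWithin] with s hs
    have : ((s ^ 2 : ℝ) : ℂ) ≠ 0 := by
      have hs' : s ≠ 0 := hs
      exact_mod_cast pow_ne_zero 2 hs'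
    rw [smul_smul, mul_inv_cancel₀ this, one_smul]
  have h3 := HasFDerivWithinAt.lim (s := Set.univ) hF.hasFDerivWithinAt hdl
    (Eventually.of_forall fun _ => trivial) h1
  have h4 : Tendsto (fun s : ℝ => (((s ^ 2 : ℝ) : ℂ))⁻¹ •
      (F (thetaVec (tau0 g) + (thetaVec (curve i j k l κ s) - thetaVec (tau0 g))) -
        F (thetaVec (tau0 g)))) (𝓝[≠] 0) (𝓝 d) := by
    refine tendsto_const_nhds.congr' ?_
    filter_upwards [self_mem_nhdsWithin, nhdsWithin_le_nhds hd] with s hs hs1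
    have : ((s ^ 2 : ℝ) : ℂ) ≠ 0 := by
      have hs' : s ≠ 0 := hs
      exact_mod_cast pow_ne_zero 2 hs'
    rw [add_sub_cancel, hs1, h0, sub_zero, smul_eq_mul, ← mul_assoc, inv_mul_cancel₀ this, one_mul]
  exact tendsto_nhds_unique h3 h4

/-- **The theta map is not an immersion at the product `tau0`.** -/
theorem not_immersion (hg : 4 ≤ g) : ¬ IsImmersionAt (tau0 g) := by
  intro himm
  obtain ⟨U, f, hU, hτU, hf, hfU⟩ := exists_hol hg
  obtain ⟨W, F, hW, hθW, hF, -, V, hV, hτV, hFV⟩ := himm f hf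
  have hFd : HasFDerivAt F (fderiv ℂ F (thetaVec (tau0 g))) (thetaVec (tau0 g)) :=
    ((hF _ hθW).differentiableAt (hW.mem_nhds hθW)).hasFDerivAt
  set p0 := ix hg 0 (by norm_num) with hp0
  set p1 := ix hg 1 (by norm_num) with hp1
  set p2 := ix hg 2 (by norm_num) with hp2
  set p3 := ix hg 3 (by norm_num) with hp3
  have b0 : blk p0 = true := by simp [hp0, blk, ix]
  have b1 : blk p1 = true := by simp [hp1, blk, ix]
  have b2 : blk p2 = false := by simp [hp2, blk, ix]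
  have b3 : blk p3 = false := by simp [hp3, blk, ix]
  have n01 : p0 ≠ p1 := by simp [hp0, hp1, ix]
  have n02 : p0 ≠ p2 := by simp [hp0, hp2, ix]
  have n03 : p0 ≠ p3 := by simp [hp0, hp3, ix]
  have n12 : p1 ≠ p2 := by simp [hp1, hp2, ix]
  have n13 : p1 ≠ p3 := by simp [hp1, hp3, ix]
  have n23 : p2 ≠ p3 := by simp [hp2, hp3, ix]
  have ev : ∀ (i j k l : Fin g) (κ : ℝ), ∀ᶠ s : ℝ in 𝓝 0,
      F (thetaVec (curve i j k l κ s)) = minor hg (curve i j k l κ s) := by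
    intro i j k l κ
    have c1 : ∀ᶠ s : ℝ in 𝓝 0, curve i j k l κ s ∈ U := by
      apply (continuous_curve i j k l κ).continuousAt.eventually_mem
      rw [curve_zero]
      exact hU.mem_nhds hτU
    have c2 : ∀ᶠ s : ℝ in 𝓝 0, proj (curve i j k l κ s) ∈ V := by
      have : ContinuousAt (fun s => proj (curve i j k l κ s)) 0 :=
        (continuous_proj.comp (continuous_curve i j k l κ)).continuousAt
      apply this.eventually_mem
      rw [curve_zero]
      exact hV.mem_nhds hτV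
    filter_upwards [c1, c2] with s h1 h2
    rw [← (hFV _ h2).2, hfU _ h1]
  have S02 : Smat g p0 p2 = 0 := by simp [Smat, n02, b0, b2]
  have S03 : Smat g p0 p3 = 0 := by simp [Smat, n03, b0, b3]
  have S12 : Smat g p1 p2 = 0 := by simp [Smat, n12, b1, b2]
  have S13 : Smat g p1 p3 = 0 := by simp [Smat, n13, b1, b3]
  have cv : ∀ (i j k l : Fin g) (κ s : ℝ) (a b : Fin g), (curve i j k l κ s).1 a b =
      I * lam * (Smat g a b : ℤ) + (s : ℂ) * (Emat i j k l κ a b : ℝ) := by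
    intro i j k l κ s a b
    show (tau0mat g + (s : ℂ) • (Emat i j k l κ).map (fun x : ℝ => (x : ℂ))) a b = _
    rw [Matrix.add_apply, tau0_apply, Matrix.smul_apply, Matrix.map_apply, smul_eq_mul]
  have mA : ∀ κ s : ℝ, minor hg (curve p0 p2 p1 p3 κ s) = ((s ^ 2 : ℝ) : ℂ) * κ := by
    intro κ s
    unfold minor
    rw [← hp0, ← hp1, ← hp2, ← hp3, cv, cv, cv, cv, S02, S03, S12, S13]
    simp only [Emat, Matrix.add_apply, Matrix.smul_apply, Matrix.single_apply, smul_eq_mul]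
    simp only [n01, n02, n03, n12, n13, n23, n01.symm, n02.symm, n03.symm, n12.symm, n13.symm,
      n23.symm, and_true, and_false, and_self, if_true, if_false, false_and, true_and]
    push_cast
    ring
  have mB : ∀ κ s : ℝ, minor hg (curve p0 p3 p1 p2 κ s) = ((s ^ 2 : ℝ) : ℂ) * (-κ) := by
    intro κ s
    unfold minor
    rw [← hp0, ← hp1, ← hp2, ← hp3, cv, cv, cv, cv, S02, S03, S12, S13]
    simp only [Emat, Matrix.add_apply, Matrix.smul_apply, Matrix.single_apply, smul_eq_mul]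
    simp only [n01, n02, n03, n12, n13, n23, n01.symm, n02.symm, n03.symm, n12.symm, n13.symm,
      n23.symm, and_true, and_false, and_self, if_true, if_false, false_and, true_and]
    push_cast
    ring
  have dA : ∀ κ : ℝ, |κ| ≤ 1 → fderiv ℂ F (thetaVec (tau0 g)) (Wv p0 p2 p1 p3 κ) = κ := by
    intro κ hκ
    refine deriv_eq b0 b2 b1 b3 hκ hFd ?_
    filter_upwards [ev p0 p2 p1 p3 κ] with s hs
    rw [hs, mA]
  have dB : ∀ κ : ℝ, |κ| ≤ 1 → fderiv ℂ F (thetaVec (tau0 g)) (Wv p0 p3 p1 p2 κ) = -κ := by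
    intro κ hκ
    refine deriv_eq b0 b3 b1 b2 hκ hFd ?_
    filter_upwards [ev p0 p3 p1 p2 κ] with s hs
    rw [hs, mB]
  have rel := congrArg (fderiv ℂ F (thetaVec (tau0 g))) (Wv_relation p0 p2 p1 p3)
  rw [map_sub, map_sub, dA 1 (by simp), dA (-1) (by simp), dB 1 (by simp), dB (-1) (by simp)] at rel
  norm_num at rel

end Pool.Agent.Q60.TM
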