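import Mathlib.LinearAlgebra.SymplecticGroup
import Mathlib.Analysis.Complex.Basic
import Mathlib.Analysis.Matrix.Normed
import Mathlib.Topology.Instances.Matrix
import Mathlib.Tactic

/-!
# The Siegel upper half space and the action of the symplectic group
-/

set_option autoImplicit false

open Matrix Complex

namespace Pool.Agent.Q60.TM

/-- The value at the real vector `x` of the quadratic form given by the imaginary part of `τ`. -/
def imForm {g : ℕ} (τ : Matrix (Fin g) (Fin g) ℂ) (x : Fin g → ℝ) : ℝ :=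
  ∑ i, ∑ j, x i * (τ i j).im * x j

/-- The Siegel upper half space: the symmetric complex `g × g` matrices with positive definite
imaginary part. -/
abbrev SiegelSpace (g : ℕ) : Type :=
  {τ : Matrix (Fin g) (Fin g) ℂ // τᵀ = τ ∧ ∀ x : Fin g → ℝ, x ≠ 0 → 0 < imForm τ x}

/-- The group `Sp(2g, ℤ)`. -/
abbrev Sp (g : ℕ) : Type := Matrix.symplecticGroup (Fin g) ℤ

/-- The four blocks of a symplectic matrix. -/
def blkA {g : ℕ} (γ : Sp g) : Matrix (Fin g) (Fin g) ℤ := γ.1.toBlocks₁₁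
/-- The block `b`. -/
def blkB {g : ℕ} (γ : Sp g) : Matrix (Fin g) (Fin g) ℤ := γ.1.toBlocks₁₂
/-- The block `c`. -/
def blkC {g : ℕ} (γ : Sp g) : Matrix (Fin g) (Fin g) ℤ := γ.1.toBlocks₂₁
/-- The block `d`. -/
def blkD {g : ℕ} (γ : Sp g) : Matrix (Fin g) (Fin g) ℤ := γ.1.toBlocks₂₂

/-- An integral matrix considered as a complex matrix. -/
def toC {g : ℕ} (a : Matrix (Fin g) (Fin g) ℤ) : Matrix (Fin g) (Fin g) ℂ := a.map (Int.cast : ℤ → ℂ)

/-- `a τ + b`. -/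
def num {g : ℕ} (γ : Sp g) (τ : Matrix (Fin g) (Fin g) ℂ) : Matrix (Fin g) (Fin g) ℂ :=
  toC (blkA γ) * τ + toC (blkB γ)

/-- `c τ + d`. -/
def den {g : ℕ} (γ : Sp g) (τ : Matrix (Fin g) (Fin g) ℂ) : Matrix (Fin g) (Fin g) ℂ :=
  toC (blkC γ) * τ + toC (blkD γ)

variable {g : ℕ}

lemma toC_mul (a b : Matrix (Fin g) (Fin g) ℤ) : toC (a * b) = toC a * toC b := by
  unfold toC
  exact Matrix.map_mul (f := Int.castRingHom ℂ)

lemma toC_add (a b : Matrix (Fin g) (Fin g) ℤ) : toC (a + b) = toC a + toC b := by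
  ext i j; simp [toC]

lemma toC_sub (a b : Matrix (Fin g) (Fin g) ℤ) : toC (a - b) = toC a - toC b := by
  ext i j; simp [toC]

lemma toC_one : toC (1 : Matrix (Fin g) (Fin g) ℤ) = 1 := by
  ext i j; by_cases h : i = j <;> simp [toC, h, Matrix.one_apply]

lemma toC_zero : toC (0 : Matrix (Fin g) (Fin g) ℤ) = 0 := by
  ext i j; simp [toC]

lemma toC_transpose (a : Matrix (Fin g) (Fin g) ℤ) : toC aᵀ = (toC a)ᵀ := by
  ext i j; simp [toC]

lemma toC_conjTranspose (a : Matrix (Fin g) (Fin g) ℤ) : (toC a)ᴴ = toC aᵀ := by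
  ext i j; simp [toC, Matrix.conjTranspose_apply]

lemma toC_injective : Function.Injective (toC : Matrix (Fin g) (Fin g) ℤ → _) := by
  intro a b h
  ext i j
  have := congrFun (congrFun h i) j
  simpa [toC] using this

lemma coe_eq_fromBlocks (γ : Sp g) :
    γ.1 = fromBlocks (blkA γ) (blkB γ) (blkC γ) (blkD γ) :=
  (fromBlocks_toBlocks γ.1).symm

/-- the relations `γᵀ J γ = J` -/
lemma rel' (γ : Sp g) :
    (blkC γ)ᵀ * blkA γ = (blkA γ)ᵀ * blkC γ ∧ (blkD γ)ᵀ * blkB γ = (blkB γ)ᵀ * blkD γ ∧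
    (blkD γ)ᵀ * blkA γ - (blkB γ)ᵀ * blkC γ = 1 ∧ (blkA γ)ᵀ * blkD γ - (blkC γ)ᵀ * blkB γ = 1 := by
  have h := SymplecticGroup.mem_iff'.1 γ.2
  rw [coe_eq_fromBlocks, J, fromBlocks_transpose, fromBlocks_multiply, fromBlocks_multiply,
    fromBlocks_inj] at h
  obtain ⟨h1, h2, h3, h4⟩ := h
  simp only [Matrix.mul_zero, Matrix.mul_one, Matrix.mul_neg, zero_add, add_zero,
    Matrix.neg_mul] at h1 h2 h3 h4
  refine ⟨?_, ?_, ?_, ?_⟩
  · rw [← sub_eq_zero, sub_eq_add_neg]; exact h1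
  · rw [← sub_eq_zero, sub_eq_add_neg]; exact h4
  · rw [sub_eq_add_neg]; exact h3
  · rw [← neg_inj, neg_sub, sub_eq_add_neg]; exact h2

/-- the relations `γ J γᵀ = J` -/
lemma rel (γ : Sp g) :
    blkA γ * (blkB γ)ᵀ = blkB γ * (blkA γ)ᵀ ∧ blkC γ * (blkD γ)ᵀ = blkD γ * (blkC γ)ᵀ ∧
    blkA γ * (blkD γ)ᵀ - blkB γ * (blkC γ)ᵀ = 1 := by
  have h := SymplecticGroup.mem_iff.1 γ.2
  rw [coe_eq_fromBlocks, J, fromBlocks_transpose, fromBlocks_multiply, fromBlocks_multiply,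
    fromBlocks_inj] at h
  obtain ⟨h1, h2, h3, h4⟩ := h
  simp only [Matrix.mul_zero, Matrix.mul_one, Matrix.mul_neg, zero_add, add_zero,
    Matrix.neg_mul] at h1 h2 h3 h4
  refine ⟨?_, ?_, ?_⟩
  · rw [← sub_eq_zero, ← neg_eq_zero, neg_sub, sub_eq_add_neg]; exact h1
  · rw [← sub_eq_zero, ← neg_eq_zero, neg_sub, sub_eq_add_neg]; exact h4
  · rw [← neg_inj, neg_sub, sub_eq_add_neg]; exact h2

lemma key_identity (γ : Sp g) (τ X : Matrix (Fin g) (Fin g) ℂ) :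
    (X * toC (blkC γ)ᵀ + toC (blkD γ)ᵀ) * num γ τ - (X * toC (blkA γ)ᵀ + toC (blkB γ)ᵀ) * den γ τ
      = τ - X := by
  obtain ⟨h1, h2, h3, h4⟩ := rel' γ
  have e1 := congrArg toC h1
  have e2 := congrArg toC h2
  have e3 := congrArg toC h3
  have e4 := congrArg toC h4
  simp only [toC_mul, toC_sub, toC_one] at e1 e2 e3 e4
  unfold num den
  have k1 : (X * toC (blkC γ)ᵀ + toC (blkD γ)ᵀ) * (toC (blkA γ) * τ + toC (blkB γ)) -
      (X * toC (blkA γ)ᵀ + toC (blkB γ)ᵀ) * (toC (blkC γ) * τ + toC (blkD γ)) =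
      X * (toC (blkC γ)ᵀ * toC (blkA γ) - toC (blkA γ)ᵀ * toC (blkC γ)) * τ
      - X * (toC (blkA γ)ᵀ * toC (blkD γ) - toC (blkC γ)ᵀ * toC (blkB γ))
      + (toC (blkD γ)ᵀ * toC (blkA γ) - toC (blkB γ)ᵀ * toC (blkC γ)) * τ
      + (toC (blkD γ)ᵀ * toC (blkB γ) - toC (blkB γ)ᵀ * toC (blkD γ)) := by
    noncomm_ring
  rw [k1, e1, e2, e3, e4]
  simp only [sub_self, Matrix.mul_zero, Matrix.zero_mul, Matrix.mul_one, Matrix.one_mul, add_zero,
    zero_sub]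
  abel

/-- The hermitian form given by the imaginary part. -/
def hForm (τ : Matrix (Fin g) (Fin g) ℂ) (v : Fin g → ℂ) : ℝ :=
  imForm τ (fun i => (v i).re) + imForm τ (fun i => (v i).im)

lemma hForm_eq {τ : Matrix (Fin g) (Fin g) ℂ} (hτ : τᵀ = τ) (v : Fin g → ℂ) :
    star v ⬝ᵥ ((τ - τᴴ) *ᵥ v) = 2 * I * (hForm τ v : ℂ) := by
  have hsym : ∀ i j, τ i j = τ j i := fun i j => by
    conv_lhs => rw [← hτ]
    rfl
  have h1 : star v ⬝ᵥ ((τ - τᴴ) *ᵥ v) = ∑ i, ∑ j, star (v i) * ((2 * I * (τ i j).im) * v j) := by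
    simp only [dotProduct, mulVec, Finset.mul_sum, Pi.star_apply, Matrix.sub_apply,
      Matrix.conjTranspose_apply]
    refine Finset.sum_congr rfl fun i _ => Finset.sum_congr rfl fun j _ => ?_
    rw [hsym j i]
    congr 2
    apply Complex.ext <;> simp <;> ring
  have h2 : ∑ i, ∑ j, ((v i).re * (v j).im - (v i).im * (v j).re) * (τ i j).im = 0 := by
    have h3 : ∑ i, ∑ j, ((v i).re * (v j).im - (v i).im * (v j).re) * (τ i j).im =
        - ∑ i, ∑ j, ((v i).re * (v j).im - (v i).im * (v j).re) * (τ i j).im := by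
      conv_lhs => rw [Finset.sum_comm]
      rw [← Finset.sum_neg_distrib]
      refine Finset.sum_congr rfl fun i _ => ?_
      rw [← Finset.sum_neg_distrib]
      refine Finset.sum_congr rfl fun j _ => ?_
      rw [hsym j i]; ring
    linarith
  rw [h1]
  have h4 : (∑ i, ∑ j, star (v i) * ((2 * I * (τ i j).im) * v j)) =
      2 * I * ((hForm τ v : ℂ) + I * ((∑ i, ∑ j, ((v i).re * (v j).im - (v i).im * (v j).re) *
        (τ i j).im : ℝ) : ℂ)) := by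
    unfold hForm imForm
    push_cast
    simp only [Finset.mul_sum, mul_add, ← Finset.sum_add_distrib]
    refine Finset.sum_congr rfl fun i _ => Finset.sum_congr rfl fun j _ => ?_
    apply Complex.ext <;> simp <;> ring
  rw [h4, h2]
  simp

lemma hForm_pos {τ : Matrix (Fin g) (Fin g) ℂ} (hp : ∀ x : Fin g → ℝ, x ≠ 0 → 0 < imForm τ x)
    {v : Fin g → ℂ} (hv : v ≠ 0) : 0 < hForm τ v := by
  have hz : imForm τ (0 : Fin g → ℝ) = 0 := by simp [imForm]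
  have hnn : ∀ x : Fin g → ℝ, 0 ≤ imForm τ x := by
    intro x
    by_cases hx : x = 0
    · rw [hx, hz]
    · exact (hp x hx).le
  unfold hForm
  by_cases h1 : (fun i => (v i).re) = 0
  · have h2 : (fun i => (v i).im) ≠ 0 := by
      intro h
      apply hv
      funext i
      exact Complex.ext (congrFun h1 i) (congrFun h i)
    have := hp _ h2
    have := hnn (fun i => (v i).re)
    linarith
  · have := hp _ h1
    have := hnn (fun i => (v i).im)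
    linarith

lemma den_conjTranspose (γ : Sp g) (τ : Matrix (Fin g) (Fin g) ℂ) :
    (den γ τ)ᴴ = τᴴ * toC (blkC γ)ᵀ + toC (blkD γ)ᵀ := by
  unfold den
  rw [conjTranspose_add, conjTranspose_mul, toC_conjTranspose, toC_conjTranspose]

lemma num_conjTranspose (γ : Sp g) (τ : Matrix (Fin g) (Fin g) ℂ) :
    (num γ τ)ᴴ = τᴴ * toC (blkA γ)ᵀ + toC (blkB γ)ᵀ := by
  unfold num
  rw [conjTranspose_add, conjTranspose_mul, toC_conjTranspose, toC_conjTranspose]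

lemma den_transpose (γ : Sp g) (τ : Matrix (Fin g) (Fin g) ℂ) :
    (den γ τ)ᵀ = τᵀ * toC (blkC γ)ᵀ + toC (blkD γ)ᵀ := by
  unfold den
  rw [transpose_add, transpose_mul, toC_transpose, toC_transpose]

lemma num_transpose (γ : Sp g) (τ : Matrix (Fin g) (Fin g) ℂ) :
    (num γ τ)ᵀ = τᵀ * toC (blkA γ)ᵀ + toC (blkB γ)ᵀ := by
  unfold num
  rw [transpose_add, transpose_mul, toC_transpose, toC_transpose]

lemma herm_identity (γ : Sp g) (τ : Matrix (Fin g) (Fin g) ℂ) :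
    (den γ τ)ᴴ * num γ τ - (num γ τ)ᴴ * den γ τ = τ - τᴴ := by
  rw [den_conjTranspose, num_conjTranspose]
  exact key_identity γ τ τᴴ

lemma sym_identity (γ : Sp g) (τ : Matrix (Fin g) (Fin g) ℂ) (hτ : τᵀ = τ) :
    (den γ τ)ᵀ * num γ τ = (num γ τ)ᵀ * den γ τ := by
  rw [← sub_eq_zero, den_transpose, num_transpose, key_identity γ τ τᵀ, hτ, sub_self]

lemma den_isUnit (γ : Sp g) (τ : SiegelSpace g) : IsUnit (den γ τ.1) := by
  rw [Matrix.isUnit_iff_isUnit_det, isUnit_iff_ne_zero]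
  intro h
  obtain ⟨v, hv, hv0⟩ := Matrix.exists_mulVec_eq_zero_iff.2 h
  have h1 : star v ⬝ᵥ (((den γ τ.1)ᴴ * num γ τ.1 - (num γ τ.1)ᴴ * den γ τ.1) *ᵥ v) =
      star v ⬝ᵥ ((τ.1 - τ.1ᴴ) *ᵥ v) := by rw [herm_identity γ τ.1]
  rw [hForm_eq τ.2.1, Matrix.sub_mulVec, dotProduct_sub, ← mulVec_mulVec, ← mulVec_mulVec, hv0,
    mulVec_zero, dotProduct_zero, sub_zero] at h1
  have h2 : star v ⬝ᵥ ((den γ τ.1)ᴴ *ᵥ (num γ τ.1 *ᵥ v)) = 0 := by
    rw [dotProduct_mulVec, ← star_mulVec, hv0, star_zero, zero_dotProduct]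
  rw [h2] at h1
  have h3 := hForm_pos τ.2.2 hv
  have h4 : (hForm τ.1 v : ℂ) ≠ 0 := by exact_mod_cast h3.ne'
  exact mul_ne_zero (mul_ne_zero two_ne_zero I_ne_zero) h4 h1.symm

lemma den_det_isUnit (γ : Sp g) (τ : SiegelSpace g) : IsUnit (den γ τ.1).det :=
  (Matrix.isUnit_iff_isUnit_det _).1 (den_isUnit γ τ)

/-- `(a τ + b) (c τ + d)⁻¹` as a matrix. -/
noncomputable def moeb (γ : Sp g) (τ : Matrix (Fin g) (Fin g) ℂ) : Matrix (Fin g) (Fin g) ℂ :=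
  num γ τ * (den γ τ)⁻¹

lemma moeb_mul_den (γ : Sp g) (τ : SiegelSpace g) : moeb γ τ.1 * den γ τ.1 = num γ τ.1 := by
  unfold moeb
  rw [Matrix.mul_assoc, Matrix.nonsing_inv_mul _ (den_det_isUnit γ τ), Matrix.mul_one]

lemma moeb_transpose (γ : Sp g) (τ : SiegelSpace g) : (moeb γ τ.1)ᵀ = moeb γ τ.1 := by
  have hu := den_det_isUnit γ τ
  have hut : IsUnit ((den γ τ.1)ᵀ).det := by rw [det_transpose]; exact hu
  have h := sym_identity γ τ.1 τ.2.1
  unfold moeb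
  rw [transpose_mul, transpose_nonsing_inv]
  have h1 : (den γ τ.1)ᵀ⁻¹ * (num γ τ.1)ᵀ = (den γ τ.1)ᵀ⁻¹ * ((num γ τ.1)ᵀ * den γ τ.1) *
      (den γ τ.1)⁻¹ := by
    rw [Matrix.mul_assoc, Matrix.mul_assoc, Matrix.mul_nonsing_inv _ hu, Matrix.mul_one]
  rw [h1, ← h, ← Matrix.mul_assoc, Matrix.nonsing_inv_mul _ hut, Matrix.one_mul]

/-- transformation of the hermitian forms -/
lemma hForm_moeb (γ : Sp g) (τ : SiegelSpace g) (w : Fin g → ℂ) :
    hForm (moeb γ τ.1) (den γ τ.1 *ᵥ w) = hForm τ.1 w := by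
  have h1 := hForm_eq (moeb_transpose γ τ) (den γ τ.1 *ᵥ w)
  have h2 := hForm_eq τ.2.1 w
  rw [← herm_identity γ τ.1] at h2
  have h3 : star (den γ τ.1 *ᵥ w) ⬝ᵥ ((moeb γ τ.1 - (moeb γ τ.1)ᴴ) *ᵥ (den γ τ.1 *ᵥ w)) =
      star w ⬝ᵥ (((den γ τ.1)ᴴ * num γ τ.1 - (num γ τ.1)ᴴ * den γ τ.1) *ᵥ w) := by
    rw [star_mulVec, ← dotProduct_mulVec, mulVec_mulVec, mulVec_mulVec]
    congr 2
    rw [Matrix.mul_assoc, Matrix.sub_mul, Matrix.mul_sub, moeb_mul_den, ← Matrix.mul_assoc,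
      ← conjTranspose_mul, moeb_mul_den]
  rw [h3, h2] at h1
  have h4 : (2 * I : ℂ) ≠ 0 := mul_ne_zero two_ne_zero I_ne_zero
  have := mul_left_cancel₀ h4 h1
  exact_mod_cast this.symm

lemma hForm_ofReal (τ : Matrix (Fin g) (Fin g) ℂ) (x : Fin g → ℝ) :
    hForm τ (fun i => (x i : ℂ)) = imForm τ x := by
  simp [hForm, imForm]

lemma moeb_pos (γ : Sp g) (τ : SiegelSpace g) (x : Fin g → ℝ) (hx : x ≠ 0) :
    0 < imForm (moeb γ τ.1) x := by
  rw [← hForm_ofReal]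
  have hu := den_det_isUnit γ τ
  set w := (den γ τ.1)⁻¹ *ᵥ (fun i => (x i : ℂ)) with hw
  have h1 : den γ τ.1 *ᵥ w = fun i => (x i : ℂ) := by
    rw [hw, mulVec_mulVec, Matrix.mul_nonsing_inv _ hu, one_mulVec]
  rw [← h1, hForm_moeb]
  apply hForm_pos τ.2.2
  rintro h0
  rw [h0, mulVec_zero] at h1
  apply hx
  funext i
  have := congrFun h1 i
  simpa using this.symm

/-- The action of `Sp(2g, ℤ)` on the Siegel upper half space: `τ ↦ (a τ + b) (c τ + d)⁻¹`. -/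
noncomputable def act (γ : Sp g) (τ : SiegelSpace g) : SiegelSpace g :=
  ⟨moeb γ τ.1, moeb_transpose γ τ, moeb_pos γ τ⟩

lemma blk_mul (γ γ' : Sp g) :
    blkA (γ * γ') = blkA γ * blkA γ' + blkB γ * blkC γ' ∧
    blkB (γ * γ') = blkA γ * blkB γ' + blkB γ * blkD γ' ∧
    blkC (γ * γ') = blkC γ * blkA γ' + blkD γ * blkC γ' ∧
    blkD (γ * γ') = blkC γ * blkB γ' + blkD γ * blkD γ' := by
  have h : (γ * γ').1 = fromBlocks (blkA γ * blkA γ' + blkB γ * blkC γ')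
      (blkA γ * blkB γ' + blkB γ * blkD γ') (blkC γ * blkA γ' + blkD γ * blkC γ')
      (blkC γ * blkB γ' + blkD γ * blkD γ') := by
    rw [Submonoid.coe_mul, coe_eq_fromBlocks γ, coe_eq_fromBlocks γ', fromBlocks_multiply]
  refine ⟨?_, ?_, ?_, ?_⟩
  · rw [blkA, h, toBlocks_fromBlocks₁₁]
  · rw [blkB, h, toBlocks_fromBlocks₁₂]
  · rw [blkC, h, toBlocks_fromBlocks₂₁]
  · rw [blkD, h, toBlocks_fromBlocks₂₂]

lemma blk_one : blkA (1 : Sp g) = 1 ∧ blkB (1 : Sp g) = 0 ∧ blkC (1 : Sp g) = 0 ∧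
    blkD (1 : Sp g) = 1 := by
  have h : (1 : Sp g).1 = fromBlocks 1 0 0 1 := by
    rw [fromBlocks_one]; rfl
  refine ⟨?_, ?_, ?_, ?_⟩
  · rw [blkA, h, toBlocks_fromBlocks₁₁]
  · rw [blkB, h, toBlocks_fromBlocks₁₂]
  · rw [blkC, h, toBlocks_fromBlocks₂₁]
  · rw [blkD, h, toBlocks_fromBlocks₂₂]

lemma num_mul (γ γ' : Sp g) (τ : SiegelSpace g) :
    num (γ * γ') τ.1 = num γ (moeb γ' τ.1) * den γ' τ.1 := by
  obtain ⟨h1, h2, h3, h4⟩ := blk_mul γ γ'
  conv_lhs => unfold num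
  conv_rhs => unfold num
  rw [h1, h2, Matrix.add_mul, Matrix.mul_assoc, moeb_mul_den, toC_add, toC_add, toC_mul, toC_mul,
    toC_mul, toC_mul]
  unfold num den
  noncomm_ring

lemma den_mul (γ γ' : Sp g) (τ : SiegelSpace g) :
    den (γ * γ') τ.1 = den γ (moeb γ' τ.1) * den γ' τ.1 := by
  obtain ⟨h1, h2, h3, h4⟩ := blk_mul γ γ'
  conv_lhs => unfold den
  rw [h3, h4, toC_add, toC_add, toC_mul, toC_mul, toC_mul, toC_mul]
  have : den γ (moeb γ' τ.1) * den γ' τ.1 = toC (blkC γ) * num γ' τ.1 + toC (blkD γ) * den γ' τ.1 := by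
    conv_lhs => rw [den]
    rw [Matrix.add_mul, Matrix.mul_assoc, moeb_mul_den]
  rw [this]
  unfold num den
  noncomm_ring

lemma act_mul (γ γ' : Sp g) (τ : SiegelSpace g) : act (γ * γ') τ = act γ (act γ' τ) := by
  apply Subtype.ext
  show moeb (γ * γ') τ.1 = moeb γ (moeb γ' τ.1)
  have hu : IsUnit (den γ' τ.1).det := den_det_isUnit γ' τ
  unfold moeb
  change num (γ * γ') τ.1 * (den (γ * γ') τ.1)⁻¹ = _
  rw [num_mul, den_mul, Matrix.mul_inv_rev, Matrix.mul_assoc, ← Matrix.mul_assoc (den γ' τ.1),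
    Matrix.mul_nonsing_inv _ hu, Matrix.one_mul]
  rfl

lemma act_one (τ : SiegelSpace g) : act 1 τ = τ := by
  apply Subtype.ext
  show moeb 1 τ.1 = τ.1
  obtain ⟨h1, h2, h3, h4⟩ := blk_one (g := g)
  unfold moeb num den
  rw [h1, h2, h3, h4, toC_one, toC_zero]
  simp

noncomputable instance : MulAction (Sp g) (SiegelSpace g) where
  smul := act
  one_smul := act_one
  mul_smul := act_mul

lemma smul_def (γ : Sp g) (τ : SiegelSpace g) : γ • τ = act γ τ := rfl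

lemma smul_val (γ : Sp g) (τ : SiegelSpace g) : (γ • τ).1 = moeb γ τ.1 := rfl

end Pool.Agent.Q60.TM
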