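import Pool.Agent.Q60.TM.Disc
import Mathlib.NumberTheory.Real.Irrational

/-!
# A product of two indecomposable principally polarized abelian varieties without extra automorphisms
-/

set_option autoImplicit false

open Matrix Complex

namespace Pool.Agent.Q60.TM

variable {g : ℕ}

/-- The first block consists of the indices `0`, `1`. -/
def blk (i : Fin g) : Bool := decide (i.val < 2)

/-- The Gram matrix of an orthogonal sum of two indecomposable lattices. -/
def Smat (g : ℕ) : Matrix (Fin g) (Fin g) ℤ := fun i j =>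
  (if i = j then 1 else 0) + (if blk i = blk j then 1 else 0)

/-- The sum of the coordinates in a block. -/
def bsum (x : Fin g → ℤ) (b : Bool) : ℤ := ∑ i, if blk i = b then x i else 0

lemma quad_eq {R : Type*} [CommRing R] (x : Fin g → R) :
    ∑ i, ∑ j, x i * ((Smat g i j : ℤ) : R) * x j =
      ∑ i, x i ^ 2 + (∑ i, if blk i = true then x i else 0) ^ 2 +
        (∑ i, if blk i = false then x i else 0) ^ 2 := by
  have h1 : ∀ i j : Fin g, x i * ((Smat g i j : ℤ) : R) * x j = (if i = j then x i * x j else 0) +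
      ((if blk i = true then x i else 0) * (if blk j = true then x j else 0) +
        (if blk i = false then x i else 0) * (if blk j = false then x j else 0)) := by
    intro i j
    unfold Smat
    by_cases h : i = j
    · subst h
      cases blk i <;> simp <;> ring
    · cases h2 : blk i <;> cases h3 : blk j <;> simp [h]
  simp only [h1, Finset.sum_add_distrib]
  rw [sq (∑ i, if blk i = true then x i else 0), sq (∑ i, if blk i = false then x i else 0),
    Finset.sum_mul_sum, Finset.sum_mul_sum]
  simp only [Finset.sum_ite_eq, Finset.mem_univ, if_true, sq]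
  ring

lemma Smat_transpose : (Smat g)ᵀ = Smat g := by
  ext i j
  simp only [Matrix.transpose_apply, Smat]
  congr 1
  · by_cases h : i = j
    · subst h; rfl
    · rw [if_neg h, if_neg (Ne.symm h)]
  · by_cases h : blk i = blk j
    · rw [if_pos h, if_pos h.symm]
    · rw [if_neg h, if_neg (Ne.symm h)]

/-- `√√2` -/
noncomputable def lam : ℝ := Real.sqrt (Real.sqrt 2)

lemma lam_pos : 0 < lam := Real.sqrt_pos.2 (Real.sqrt_pos.2 (by norm_num))

lemma lam_sq : lam ^ 2 = Real.sqrt 2 := Real.sq_sqrt (Real.sqrt_nonneg 2)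

/-- the point `i √√2 S` -/
noncomputable def tau0mat (g : ℕ) : Matrix (Fin g) (Fin g) ℂ := (I * lam : ℂ) • toC (Smat g)

lemma tau0_apply (i j : Fin g) : tau0mat g i j = I * lam * (Smat g i j : ℤ) := by
  simp [tau0mat, toC]

lemma tau0_im (i j : Fin g) : (tau0mat g i j).im = lam * (Smat g i j : ℤ) := by
  rw [tau0_apply]
  simp

lemma imForm_tau0 (x : Fin g → ℝ) : imForm (tau0mat g) x = lam * (∑ i, x i ^ 2 +
    (∑ i, if blk i = true then x i else 0) ^ 2 + (∑ i, if blk i = false then x i else 0) ^ 2) := by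
  rw [← quad_eq, Finset.mul_sum]
  unfold imForm
  refine Finset.sum_congr rfl fun i _ => ?_
  rw [Finset.mul_sum]
  refine Finset.sum_congr rfl fun j _ => ?_
  rw [tau0_im]; ring

lemma imForm_tau0_ge (x : Fin g → ℝ) : lam * ∑ i, x i ^ 2 ≤ imForm (tau0mat g) x := by
  rw [imForm_tau0]
  apply mul_le_mul_of_nonneg_left _ lam_pos.le
  have h1 := sq_nonneg (∑ i, if blk i = true then x i else 0)
  have h2 := sq_nonneg (∑ i, if blk i = false then x i else 0)
  linarith

/-- The point `i √√2 S` of the Siegel upper half space. -/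
noncomputable def tau0 (g : ℕ) : SiegelSpace g := ⟨tau0mat g, by
  rw [tau0mat, Matrix.transpose_smul, ← toC_transpose, Smat_transpose], by
  intro x hx
  refine lt_of_lt_of_le ?_ (imForm_tau0_ge x)
  apply mul_pos lam_pos
  obtain ⟨i, hi⟩ : ∃ i, x i ≠ 0 := by
    by_contra h
    push Not at h
    exact hx (funext h)
  have : 0 < x i ^ 2 := by positivity
  exact lt_of_lt_of_le this (Finset.single_le_sum (f := fun i => x i ^ 2)
    (fun k _ => sq_nonneg (x k)) (Finset.mem_univ i))⟩

lemma Smat_abs (i j : Fin g) : |(Smat g i j : ℝ)| ≤ 2 := by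
  unfold Smat
  push_cast
  by_cases h : i = j <;> by_cases h2 : blk i = blk j <;> simp [h, h2] <;> norm_num

lemma bd_tau0 : Bd (2 * lam) lam (tau0 g).1 := by
  refine ⟨fun i j => ?_, imForm_tau0_ge⟩
  show ‖tau0mat g i j‖ ≤ _
  rw [tau0_apply, norm_mul, norm_mul, Complex.norm_I, one_mul, Complex.norm_real,
    Complex.norm_intCast, Real.norm_of_nonneg lam_pos.le, mul_comm]
  exact mul_le_mul_of_nonneg_right (Smat_abs i j) lam_pos.le

lemma Smat_mul_eq_zero {X : Matrix (Fin g) (Fin g) ℤ} (h : Smat g * X = 0) : X = 0 := by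
  ext k l
  have h1 : ∑ i, ∑ j, X i l * (Smat g i j) * X j l = 0 := by
    have : ∀ i, ∑ j, X i l * (Smat g i j) * X j l = X i l * (Smat g * X) i l := by
      intro i
      rw [Matrix.mul_apply, Finset.mul_sum]
      exact Finset.sum_congr rfl fun j _ => by ring
    simp [this, h]
  have h2 := quad_eq (R := ℤ) (fun i => X i l)
  simp only [Int.cast_id] at h2
  rw [h1] at h2
  have h3 : X k l ^ 2 ≤ ∑ i, X i l ^ 2 := Finset.single_le_sum (f := fun i => X i l ^ 2)
    (fun i _ => sq_nonneg _) (Finset.mem_univ k)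
  have h4 : X k l ^ 2 = 0 := by
    nlinarith [sq_nonneg (∑ i, if blk i = true then X i l else 0),
      sq_nonneg (∑ i, if blk i = false then X i l else 0), sq_nonneg (X k l)]
  simpa using h4

/-- the stabiliser of `tau0` in the level two group -/
lemma stab {γ : Sp g} (hγ : IsLevelTwo γ) (h : γ • tau0 g = tau0 g) :
    ∃ ε : Fin g → ℤ, (∀ i, ε i = 1 ∨ ε i = -1) ∧ (∀ i j, blk i = blk j → ε i = ε j) ∧
      blkA γ = Matrix.diagonal ε ∧ blkB γ = 0 ∧ blkC γ = 0 ∧ blkD γ = Matrix.diagonal ε := by
  have h1 : moeb γ (tau0 g).1 = (tau0 g).1 := congrArg Subtype.val h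
  have h2 := moeb_mul_den γ (tau0 g)
  rw [h1] at h2
  set A := blkA γ with hA
  set B := blkB γ with hB
  set C := blkC γ with hC
  set D := blkD γ with hD
  set S := Smat g with hS
  have h3 : ∀ i j, -(lam ^ 2) * ((S * C * S) i j : ℝ) = (B i j : ℝ) ∧
      (((S * D) i j : ℤ) : ℝ) = ((A * S) i j : ℤ) := by
    intro i j
    have h4 : ((I * lam : ℂ) • toC S) * (toC C * ((I * lam : ℂ) • toC S) + toC D) =
        toC A * ((I * lam : ℂ) • toC S) + toC B := h2
    have h5 : ((I * lam : ℂ) • toC S) * (toC C * ((I * lam : ℂ) • toC S) + toC D) =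
        (-(lam ^ 2 : ℂ)) • toC (S * C * S) + (I * lam : ℂ) • toC (S * D) := by
      rw [Matrix.mul_add, Matrix.mul_smul, Matrix.smul_mul, Matrix.smul_mul, Matrix.mul_smul,
        smul_smul, toC_mul, toC_mul, toC_mul, ← Matrix.mul_assoc]
      congr 2
      ring_nf
      rw [I_sq]; ring
    have h6 : toC A * ((I * lam : ℂ) • toC S) + toC B = toC B + (I * lam : ℂ) • toC (A * S) := by
      rw [Matrix.mul_smul, toC_mul, add_comm]
    rw [h5, h6] at h4
    have h7 := congrFun (congrFun h4 i) j
    simp only [Matrix.add_apply, Matrix.smul_apply, toC, Matrix.map_apply, smul_eq_mul] at h7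
    have hre := congrArg Complex.re h7
    have him := congrArg Complex.im h7
    have c1 : (lam : ℂ) ^ 2 = ((lam ^ 2 : ℝ) : ℂ) := by push_cast; rfl
    rw [c1] at hre him
    constructor
    · rw [Complex.add_re, Complex.add_re, ← Complex.ofReal_neg, Complex.re_ofReal_mul,
        Complex.intCast_re, Complex.intCast_re] at hre
      have k1 : ∀ z : ℤ, (I * (lam : ℂ) * (z : ℂ)).re = 0 := by intro z; simp
      rw [k1, k1, add_zero, add_zero] at hre
      exact hre
    · rw [Complex.add_im, Complex.add_im, ← Complex.ofReal_neg, Complex.im_ofReal_mul,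
        Complex.intCast_im, Complex.intCast_im, mul_zero, zero_add, zero_add] at him
      have k1 : ∀ z : ℤ, (I * (lam : ℂ) * (z : ℂ)).im = lam * z := by intro z; simp
      rw [k1, k1] at him
      exact mul_left_cancel₀ lam_pos.ne' him
  have hirr : ∀ m n : ℤ, -(lam ^ 2) * (m : ℝ) = (n : ℝ) → m = 0 ∧ n = 0 := by
    intro m n hmn
    rw [lam_sq] at hmn
    by_cases hm : m = 0
    · subst hm
      refine ⟨rfl, ?_⟩
      simp at hmn
      exact_mod_cast hmn.symm
    · exfalso
      have h8 : Real.sqrt 2 = ((-n / m : ℚ) : ℝ) := by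
        push_cast
        have : (m : ℝ) ≠ 0 := by exact_mod_cast hm
        field_simp
        linarith
      exact irrational_sqrt_two ⟨_, h8.symm⟩
  have hB0 : B = 0 := by
    ext i j
    exact (hirr _ _ (h3 i j).1).2
  have hSCS : S * (C * S) = 0 := by
    rw [← Matrix.mul_assoc]
    ext i j
    exact (hirr _ _ (h3 i j).1).1
  have hC0 : C = 0 := by
    have h9 := Smat_mul_eq_zero hSCS
    have h10 : S * Cᵀ = 0 := by
      have := congrArg Matrix.transpose h9
      rwa [Matrix.transpose_mul, Smat_transpose, Matrix.transpose_zero] at this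
    have := congrArg Matrix.transpose (Smat_mul_eq_zero h10)
    simpa using this
  have hSD : S * D = A * S := by
    ext i j
    exact_mod_cast (h3 i j).2
  have hAD : A * Dᵀ = 1 := by
    have := (rel γ).2.2
    rw [← hA, ← hD, ← hB, ← hC, hB0, Matrix.zero_mul, sub_zero] at this
    exact this
  have hDA : D * Aᵀ = 1 := by
    have := congrArg Matrix.transpose hAD
    rwa [Matrix.transpose_mul, Matrix.transpose_transpose, Matrix.transpose_one] at this
  have hASA : A * S * Aᵀ = S := by
    rw [← hSD, Matrix.mul_assoc, hDA, Matrix.mul_one]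
  -- the rows of `A`
  have hrow : ∀ i, (A i i = 1 ∨ A i i = -1) ∧ ∀ k, k ≠ i → A i k = 0 := by
    intro i
    have e1 : ∑ k, ∑ l, A i k * S k l * A i l = 2 := by
      have e2 : (A * S * Aᵀ) i i = 2 := by
        rw [hASA, hS]; simp [Smat]
      rw [← e2, Matrix.mul_apply]
      simp only [Matrix.mul_apply, Matrix.transpose_apply, Finset.sum_mul]
      rw [Finset.sum_comm]
    have e3 := quad_eq (R := ℤ) (fun k => A i k)
    simp only [Int.cast_id] at e3
    rw [← hS, e1] at e3
    have hodd : ¬ (2 : ℤ) ∣ A i i := by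
      have := hγ.1 i i
      rw [← hA, Matrix.one_apply_eq] at this
      omega
    have heven : ∀ k, k ≠ i → (2 : ℤ) ∣ A i k := by
      intro k hk
      have := hγ.1 i k
      rw [← hA, Matrix.one_apply_ne (Ne.symm hk), sub_zero] at this
      exact this
    have hs : ∀ b, b = blk i → ¬ (2 : ℤ) ∣ ∑ k, if blk k = b then A i k else 0 := by
      intro b hb
      rw [← Finset.add_sum_erase _ _ (Finset.mem_univ i), if_pos hb.symm]
      intro hdvd
      apply hodd
      refine (dvd_add_left ?_).1 hdvd
      apply Finset.dvd_sum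
      intro k hk
      split_ifs
      · exact heven k (Finset.ne_of_mem_erase hk)
      · exact dvd_zero _
    have sqge : ∀ z : ℤ, ¬ (2 : ℤ) ∣ z → 1 ≤ z ^ 2 := by
      intro z hz
      have : z ≠ 0 := by rintro rfl; exact hz (dvd_zero _)
      have := sq_pos_of_ne_zero this
      omega
    have hsum : 1 ≤ (∑ k, if blk k = true then A i k else 0) ^ 2 +
        (∑ k, if blk k = false then A i k else 0) ^ 2 := by
      cases hb : blk i
      · have := sqge _ (hs false hb.symm)
        have := sq_nonneg (∑ k, if blk k = true then A i k else 0)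
        linarith
      · have := sqge _ (hs true hb.symm)
        have := sq_nonneg (∑ k, if blk k = false then A i k else 0)
        linarith
    have hAii := sqge _ hodd
    rw [← Finset.add_sum_erase _ _ (Finset.mem_univ i)] at e3
    have hrest : 0 ≤ ∑ k ∈ Finset.univ.erase i, A i k ^ 2 := Finset.sum_nonneg fun k _ => sq_nonneg _
    constructor
    · have h11 : A i i ^ 2 = 1 := by linarith
      rw [sq] at h11
      exact mul_self_eq_one_iff.1 h11
    · intro k hk
      have h12 : ∑ k ∈ Finset.univ.erase i, A i k ^ 2 = 0 := by linarith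
      have h13 := (Finset.sum_eq_zero_iff_of_nonneg fun k _ => sq_nonneg _).1 h12 k
        (Finset.mem_erase.2 ⟨hk, Finset.mem_univ k⟩)
      simpa using h13
  set ε : Fin g → ℤ := fun i => A i i with hε
  have hAdiag : A = Matrix.diagonal ε := by
    ext i k
    by_cases hik : i = k
    · subst hik; simp [hε]
    · rw [Matrix.diagonal_apply_ne _ hik]
      exact (hrow i).2 k (Ne.symm hik)
  have hε1 : ∀ i, ε i = 1 ∨ ε i = -1 := fun i => (hrow i).1
  have hεsq : ∀ i, ε i * ε i = 1 := fun i => by rcases hε1 i with h | h <;> rw [h] <;> norm_num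
  have hDdiag : D = Matrix.diagonal ε := by
    have h14 : Matrix.diagonal ε * Matrix.diagonal ε = (1 : Matrix (Fin g) (Fin g) ℤ) := by
      rw [Matrix.diagonal_mul_diagonal]
      simp [hεsq]
    have h15 : D = D * (Aᵀ * Matrix.diagonal ε) := by
      rw [hAdiag, Matrix.diagonal_transpose, h14, Matrix.mul_one]
    rw [h15, ← Matrix.mul_assoc, hDA, Matrix.one_mul]
  refine ⟨ε, hε1, ?_, hAdiag, hB0, hC0, hDdiag⟩
  intro i j hij
  by_cases hne : i = j
  · rw [hne]
  have h16 : (A * S * Aᵀ) i j = ε i * S i j * ε j := by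
    rw [hAdiag, Matrix.diagonal_transpose, Matrix.mul_diagonal, Matrix.diagonal_mul]
  have h17 : S i j = 1 := by simp [hS, Smat, hne, hij]
  rw [hASA, h17] at h16
  rcases hε1 i with h | h <;> rcases hε1 j with h' | h' <;> rw [h, h'] at h16 ⊢ <;> norm_num at h16

end Pool.Agent.Q60.TM
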