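import Pool.Agent.Q60.TM.Stab
import Mathlib.NumberTheory.ModularForms.JacobiTheta.TwoVariable
import Mathlib.Analysis.Normed.Group.Tannery
import Mathlib.Analysis.SpecialFunctions.Trigonometric.Bounds
import Mathlib.Data.Matrix.Basis

/-!
# Second order expansion of the theta constants at a product
-/

set_option autoImplicit false

open Matrix Complex Filter Topology

namespace Pool.Agent.Q60.TM

variable {g : ℕ}

section Summability

/-- products of a summable function -/
lemma summable_prod_pi {f : Fin g → ℤ → ℝ} (h0 : ∀ i n, 0 ≤ f i n) (hf : ∀ i, Summable (f i)) :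
    Summable fun n : Fin g → ℤ => ∏ i, f i (n i) := by
  classical
  refine summable_of_sum_le (c := ∏ i, ∑' n, f i n)
    (fun n => Finset.prod_nonneg fun i _ => h0 i _) fun s => ?_
  set t : Fin g → Finset ℤ := fun i => s.image fun n => n i
  have hsub : s ⊆ Fintype.piFinset t := by
    intro n hn
    rw [Fintype.mem_piFinset]
    intro i
    exact Finset.mem_image_of_mem _ hn
  calc ∑ n ∈ s, ∏ i, f i (n i) ≤ ∑ n ∈ Fintype.piFinset t, ∏ i, f i (n i) :=
        Finset.sum_le_sum_of_subset_of_nonneg hsub fun n _ _ => Finset.prod_nonneg fun i _ => h0 i _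
    _ = ∏ i, ∑ j ∈ t i, f i j := (Finset.prod_univ_sum t f).symm
    _ ≤ ∏ i, ∑' n, f i n := by
        apply Finset.prod_le_prod
        · intro i _
          exact Finset.sum_nonneg fun j _ => h0 i j
        · intro i _
          exact (hf i).sum_le_tsum _ fun j _ => h0 i j

lemma summable_gauss {a : ℝ} (ha : 0 < a) {c : ℝ} (hc : 0 ≤ c) :
    Summable fun n : ℤ => Real.exp (-a * (n + c) ^ 2) := by
  have h1 := summable_pow_mul_jacobiTheta₂_term_bound (a / Real.pi * c) (T := a / Real.pi)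
    (by positivity) 0
  refine Summable.of_nonneg_of_le (fun n => (Real.exp_pos _).le) (fun n => ?_) h1
  rw [pow_zero, one_mul, Real.exp_le_exp]
  have hpi := Real.pi_pos.ne'
  have e1 : -Real.pi * (a / Real.pi * (n : ℝ) ^ 2 - 2 * (a / Real.pi * c) * |(n : ℝ)|) =
      -a * ((n : ℝ) ^ 2 - 2 * c * |(n : ℝ)|) := by field_simp
  have e2 : -Real.pi * (a / Real.pi * (n : ℝ) ^ 2 - 2 * (a / Real.pi * c) * ((|n| : ℤ) : ℝ)) =
      -a * ((n : ℝ) ^ 2 - 2 * c * |(n : ℝ)|) := by
    rw [Int.cast_abs]; exact e1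
  rw [e2]
  have h2 : (n : ℝ) ^ 2 - 2 * c * |(n : ℝ)| ≤ (n + c) ^ 2 := by
    nlinarith [neg_abs_le (n : ℝ), sq_nonneg c, mul_le_mul_of_nonneg_left (neg_abs_le (n : ℝ)) hc]
  nlinarith

end Summability

/-- `n + e / 2` -/
noncomputable def mv (e : Fin g → Fin 2) (n : Fin g → ℤ) : Fin g → ℝ := fun i => n i + (e i : ℕ) / 2

/-- the value of the quadratic form -/
noncomputable def qv (m : Fin g → ℝ) : ℝ := ∑ i, m i ^ 2 + (∑ i, if blk i = true then m i else 0) ^ 2 +
    (∑ i, if blk i = false then m i else 0) ^ 2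

lemma qv_ge (m : Fin g → ℝ) : ∑ i, m i ^ 2 ≤ qv m := by
  unfold qv
  nlinarith [sq_nonneg (∑ i, if blk i = true then m i else 0),
    sq_nonneg (∑ i, if blk i = false then m i else 0)]

/-- the Gaussian weights -/
noncomputable def cw (e : Fin g → Fin 2) (n : Fin g → ℤ) : ℝ :=
  Real.exp (-(2 * Real.pi * lam) * qv (mv e n))

lemma cw_nonneg (e : Fin g → Fin 2) (n : Fin g → ℤ) : 0 ≤ cw e n := (Real.exp_pos _).le

lemma summable_cw' (e : Fin g → Fin 2) {a : ℝ} (ha : 0 < a) :
    Summable fun n : Fin g → ℤ => Real.exp (-a * ∑ i, mv e n i ^ 2) := by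
  have h := summable_prod_pi (g := g) (f := fun i n => Real.exp (-a * (n + ((e i : ℕ) : ℝ) / 2) ^ 2))
    (fun i n => (Real.exp_pos _).le) (fun i => summable_gauss ha (by positivity))
  convert h using 2 with n
  rw [← Real.exp_sum, Finset.mul_sum]
  rfl

lemma cw_mul_le (e : Fin g → Fin 2) (n : Fin g → ℤ) {K : ℝ} (q : ℝ)
    (hq : |q| ≤ K * ∑ i, mv e n i ^ 2) (hK : 0 ≤ K) :
    cw e n * q ^ 2 ≤ 2 * K ^ 2 / (Real.pi * lam) ^ 2 *
      Real.exp (-(Real.pi * lam) * ∑ i, mv e n i ^ 2) := by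
  set x := ∑ i, mv e n i ^ 2 with hx
  have hx0 : 0 ≤ x := Finset.sum_nonneg fun i _ => sq_nonneg _
  have hpl : 0 < Real.pi * lam := mul_pos Real.pi_pos lam_pos
  have h1 : q ^ 2 ≤ (K * x) ^ 2 := by
    rw [← sq_abs]
    exact pow_le_pow_left₀ (abs_nonneg _) hq 2
  have h2 : cw e n ≤ Real.exp (-(2 * Real.pi * lam) * x) := by
    unfold cw
    rw [Real.exp_le_exp]
    have := qv_ge (mv e n)
    have h3 : 0 < 2 * Real.pi * lam := by linarith
    nlinarith
  have h4 : (Real.pi * lam * x) ^ 2 / 2 ≤ Real.exp (Real.pi * lam * x) := by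
    have h5 : 0 ≤ Real.pi * lam * x := mul_nonneg hpl.le hx0
    have := Real.quadratic_le_exp_of_nonneg (x := Real.pi * lam * x) h5
    linarith
  have h5 : x ^ 2 ≤ 2 / (Real.pi * lam) ^ 2 * Real.exp (Real.pi * lam * x) := by
    rw [div_mul_eq_mul_div, le_div_iff₀ (pow_pos hpl 2)]
    nlinarith
  calc cw e n * q ^ 2 ≤ Real.exp (-(2 * Real.pi * lam) * x) * (K * x) ^ 2 :=
        mul_le_mul h2 h1 (sq_nonneg _) (Real.exp_pos _).le
    _ = K ^ 2 * (Real.exp (-(2 * Real.pi * lam) * x) * x ^ 2) := by ring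
    _ ≤ K ^ 2 * (Real.exp (-(2 * Real.pi * lam) * x) *
          (2 / (Real.pi * lam) ^ 2 * Real.exp (Real.pi * lam * x))) := by
        apply mul_le_mul_of_nonneg_left _ (sq_nonneg _)
        exact mul_le_mul_of_nonneg_left h5 (Real.exp_pos _).le
    _ = 2 * K ^ 2 / (Real.pi * lam) ^ 2 *
          (Real.exp (-(2 * Real.pi * lam) * x) * Real.exp (Real.pi * lam * x)) := by ring
    _ = _ := by
        rw [← Real.exp_add]
        congr 2
        ring

lemma summable_cw_mul (e : Fin g → Fin 2) {K : ℝ} (hK : 0 ≤ K) (q : (Fin g → ℤ) → ℝ)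
    (hq : ∀ n, |q n| ≤ K * ∑ i, mv e n i ^ 2) : Summable fun n => cw e n * q n ^ 2 := by
  refine Summable.of_nonneg_of_le (fun n => mul_nonneg (Real.exp_pos _).le (sq_nonneg _))
    (fun n => cw_mul_le e n (q n) (hq n) hK) ?_
  exact (summable_cw' e (mul_pos Real.pi_pos lam_pos)).mul_left _

lemma summable_cw (e : Fin g → Fin 2) : Summable fun n : Fin g → ℤ => cw e n := by
  refine Summable.of_nonneg_of_le (fun n => (Real.exp_pos _).le) (fun n => ?_)
    (summable_cw' e (a := 2 * Real.pi * lam) (by have := lam_pos; positivity))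
  unfold cw
  rw [Real.exp_le_exp]
  have := qv_ge (mv e n)
  have h3 : 0 < 2 * Real.pi * lam := by have := lam_pos; positivity
  nlinarith

/-- the reflection in the second block -/
def flip (e : Fin g → Fin 2) : (Fin g → ℤ) ≃ (Fin g → ℤ) where
  toFun n := fun i => if blk i = true then n i else -n i - (e i : ℕ)
  invFun n := fun i => if blk i = true then n i else -n i - (e i : ℕ)
  left_inv n := by
    funext i
    by_cases h : blk i = true <;> simp [h]
  right_inv n := by
    funext i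
    by_cases h : blk i = true <;> simp [h]

lemma mv_flip (e : Fin g → Fin 2) (n : Fin g → ℤ) (i : Fin g) :
    mv e (flip e n) i = if blk i = true then mv e n i else -mv e n i := by
  unfold mv flip
  by_cases h : blk i = true
  · simp [h]
  · simp only [Equiv.coe_fn_mk, h]
    push_cast
    simp
    ring

lemma qv_flip (e : Fin g → Fin 2) (n : Fin g → ℤ) : qv (mv e (flip e n)) = qv (mv e n) := by
  unfold qv
  have h1 : ∀ i, mv e (flip e n) i ^ 2 = mv e n i ^ 2 := by
    intro i
    rw [mv_flip]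
    split_ifs <;> ring
  have h2 : (∑ i, if blk i = true then mv e (flip e n) i else 0) =
      ∑ i, if blk i = true then mv e n i else 0 := by
    refine Finset.sum_congr rfl fun i _ => ?_
    rw [mv_flip]
    by_cases h : blk i = true <;> simp [h]
  have h3 : (∑ i, if blk i = false then mv e (flip e n) i else 0) =
      -∑ i, if blk i = false then mv e n i else 0 := by
    rw [← Finset.sum_neg_distrib]
    refine Finset.sum_congr rfl fun i _ => ?_
    rw [mv_flip]
    cases h : blk i <;> simp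
  simp only [h1]
  rw [h2, h3]
  ring

lemma cw_flip (e : Fin g → Fin 2) (n : Fin g → ℤ) : cw e (flip e n) = cw e n := by
  unfold cw
  rw [qv_flip]

/-- the direction in the space of symmetric matrices -/
def Emat (i j k l : Fin g) (κ : ℝ) : Matrix (Fin g) (Fin g) ℝ :=
  Matrix.single i j 1 + Matrix.single j i 1 + κ • (Matrix.single k l 1 + Matrix.single l k 1)

lemma Emat_transpose (i j k l : Fin g) (κ : ℝ) : (Emat i j k l κ)ᵀ = Emat i j k l κ := by
  unfold Emat
  simp only [Matrix.transpose_add, Matrix.transpose_smul, Matrix.transpose_single]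
  rw [add_comm (Matrix.single j i (1 : ℝ)), add_comm (Matrix.single l k (1 : ℝ))]

/-- the bilinear value -/
def Qv (i j k l : Fin g) (κ : ℝ) (m : Fin g → ℝ) : ℝ := 2 * (m i * m j + κ * (m k * m l))

lemma Emat_form (i j k l : Fin g) (κ : ℝ) (m : Fin g → ℝ) :
    ∑ a, ∑ b, m a * Emat i j k l κ a b * m b = Qv i j k l κ m := by
  have h : ∀ p q : Fin g, ∑ a, ∑ b, m a * (Matrix.single p q (1 : ℝ)) a b * m b = m p * m q := by
    intro p q
    simp only [Matrix.single_apply]
    rw [Finset.sum_eq_single p, Finset.sum_eq_single q]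
    · simp
    · intro b _ hb
      simp [Ne.symm hb]
    · intro h; exact absurd (Finset.mem_univ _) h
    · intro a _ ha
      apply Finset.sum_eq_zero
      intro b _
      simp [Ne.symm ha]
    · intro h; exact absurd (Finset.mem_univ _) h
  have e : ∀ a b, m a * Emat i j k l κ a b * m b =
      m a * (Matrix.single i j (1 : ℝ)) a b * m b + m a * (Matrix.single j i (1 : ℝ)) a b * m b +
      κ * (m a * (Matrix.single k l (1 : ℝ)) a b * m b + m a * (Matrix.single l k (1 : ℝ)) a b * m b) := by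
    intro a b
    simp only [Emat, Matrix.add_apply, Matrix.smul_apply, smul_eq_mul]
    ring
  simp only [e, Finset.sum_add_distrib, ← Finset.mul_sum, h]
  unfold Qv
  ring

/-- The curve `τ₀ + s E`. -/
noncomputable def curve (i j k l : Fin g) (κ : ℝ) (s : ℝ) : SiegelSpace g :=
  ⟨tau0mat g + (s : ℂ) • (Emat i j k l κ).map (fun x : ℝ => (x : ℂ)), by
    rw [Matrix.transpose_add, Matrix.transpose_smul, ← Matrix.transpose_map, Emat_transpose]
    congr 1
    exact (tau0 g).2.1, by
    intro x hx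
    have : imForm (tau0mat g + (s : ℂ) • (Emat i j k l κ).map (fun x : ℝ => (x : ℂ))) x =
        imForm (tau0mat g) x := by
      unfold imForm
      refine Finset.sum_congr rfl fun a _ => Finset.sum_congr rfl fun b _ => ?_
      congr 2
      simp only [Matrix.add_apply, Matrix.smul_apply, Matrix.map_apply, smul_eq_mul,
        Complex.add_im, ← Complex.ofReal_mul, Complex.ofReal_im, add_zero]
    rw [this]
    exact (tau0 g).2.2 x hx⟩

lemma curve_zero (i j k l : Fin g) (κ : ℝ) : curve i j k l κ 0 = tau0 g := by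
  apply Subtype.ext
  show tau0mat g + _ = tau0mat g
  simp

lemma thetaVec_curve (i j k l : Fin g) (κ : ℝ) (s : ℝ) (e : Fin g → Fin 2) :
    thetaVec (curve i j k l κ s) e = ∑' n : Fin g → ℤ,
      (cw e n : ℂ) * cexp ((2 * Real.pi * s * Qv i j k l κ (mv e n) : ℝ) * I) := by
  unfold thetaVec theta
  refine tsum_congr fun n => ?_
  have h1 : (∑ a, ∑ b, ((n a : ℂ) + ((e a : ℕ) : ℂ) / 2) *
      ((2 : ℂ) • (curve i j k l κ s).1) a b * ((n b : ℂ) + ((e b : ℕ) : ℂ) / 2)) =
      2 * (I * lam * (qv (mv e n) : ℝ) + (s * Qv i j k l κ (mv e n) : ℝ)) := by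
    have h2 : ∀ a b : Fin g, ((n a : ℂ) + ((e a : ℕ) : ℂ) / 2) *
        ((2 : ℂ) • (curve i j k l κ s).1) a b * ((n b : ℂ) + ((e b : ℕ) : ℂ) / 2) =
        2 * (I * lam * ((mv e n a * (Smat g a b : ℝ) * mv e n b : ℝ) : ℂ) +
          ((s * (mv e n a * Emat i j k l κ a b * mv e n b) : ℝ) : ℂ)) := by
      intro a b
      show _ * ((2 : ℂ) • (tau0mat g + (s : ℂ) • (Emat i j k l κ).map (fun x : ℝ => (x : ℂ)))) a b * _ = _
      rw [Matrix.smul_apply, Matrix.add_apply, tau0_apply, Matrix.smul_apply, Matrix.map_apply]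
      unfold mv
      push_cast
      simp only [smul_eq_mul]
      ring
    simp only [h2]
    simp only [← Finset.mul_sum, Finset.sum_add_distrib]
    congr 3
    · have := quad_eq (R := ℝ) (mv e n)
      rw [qv, ← this]
      push_cast
      rfl
    · rw [← Emat_form, Finset.mul_sum]
      push_cast
      refine Finset.sum_congr rfl fun a _ => ?_
      rw [Finset.mul_sum]
  rw [h1]
  simp only [Pi.zero_apply, add_zero, mul_zero, Finset.sum_const_zero]
  rw [cw, Complex.ofReal_exp, ← Complex.exp_add]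
  congr 1
  push_cast
  ring_nf
  rw [I_sq]
  ring

lemma Qv_flip {i j k l : Fin g} (hi : blk i = true) (hj : blk j = false) (hk : blk k = true)
    (hl : blk l = false) (κ : ℝ) (e : Fin g → Fin 2) (n : Fin g → ℤ) :
    Qv i j k l κ (mv e (flip e n)) = -Qv i j k l κ (mv e n) := by
  unfold Qv
  rw [mv_flip, mv_flip, mv_flip, mv_flip]
  simp only [hi, hj, hk, hl, if_true, Bool.false_eq_true, if_false]
  ring

lemma Qv_le {κ : ℝ} (hκ : |κ| ≤ 1) (i j k l : Fin g) (m : Fin g → ℝ) :
    |Qv i j k l κ m| ≤ 4 * ∑ i, m i ^ 2 := by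
  have h1 : ∀ a, m a ^ 2 ≤ ∑ i, m i ^ 2 := fun a =>
    Finset.single_le_sum (f := fun i => m i ^ 2) (fun k _ => sq_nonneg (m k)) (Finset.mem_univ a)
  have h2 : ∀ a b, |m a * m b| ≤ ∑ i, m i ^ 2 := by
    intro a b
    rw [abs_le]
    constructor <;> nlinarith [h1 a, h1 b, sq_nonneg (m a - m b), sq_nonneg (m a + m b)]
  have h3 : |κ * (m k * m l)| ≤ ∑ i, m i ^ 2 := by
    rw [abs_mul]
    calc |κ| * |m k * m l| ≤ 1 * |m k * m l| := mul_le_mul_of_nonneg_right hκ (abs_nonneg _)
      _ ≤ _ := by rw [one_mul]; exact h2 k l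
  unfold Qv
  rw [abs_mul, abs_two]
  have := abs_add_le (m i * m j) (κ * (m k * m l))
  have := h2 i j
  linarith

/-- the theta constants along the curve are sums of cosines -/
lemma thetaVec_curve' {i j k l : Fin g} (hi : blk i = true) (hj : blk j = false) (hk : blk k = true)
    (hl : blk l = false) (κ : ℝ) (s : ℝ) (e : Fin g → Fin 2) :
    thetaVec (curve i j k l κ s) e =
      ((∑' n : Fin g → ℤ, cw e n * Real.cos (2 * Real.pi * s * Qv i j k l κ (mv e n)) : ℝ) : ℂ) := by
  rw [thetaVec_curve]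
  set u : (Fin g → ℤ) → ℝ := fun n => 2 * Real.pi * s * Qv i j k l κ (mv e n) with hu
  have hs : ∀ v : (Fin g → ℤ) → ℝ, Summable fun n => (cw e n : ℂ) * cexp ((v n : ℝ) * I) := by
    intro v
    apply Summable.of_norm
    have : (fun n => ‖(cw e n : ℂ) * cexp ((v n : ℝ) * I)‖) = fun n => cw e n := by
      funext n
      rw [norm_mul, Complex.norm_exp_ofReal_mul_I, mul_one, Complex.norm_real]
      exact Real.norm_of_nonneg (Real.exp_pos _).le
    rw [this]
    exact summable_cw e
  have h1 : ∑' n, (cw e n : ℂ) * cexp ((u n : ℝ) * I) = ∑' n, (cw e n : ℂ) * cexp ((-u n : ℝ) * I) := by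
    rw [← (flip e).tsum_eq]
    refine tsum_congr fun n => ?_
    rw [cw_flip]
    congr 4
    simp only [hu]
    rw [Qv_flip hi hj hk hl]
    ring
  have h2 : (2 : ℂ) * ∑' n, (cw e n : ℂ) * cexp ((u n : ℝ) * I) =
      2 * ((∑' n, cw e n * Real.cos (u n) : ℝ) : ℂ) := by
    rw [two_mul]
    conv_lhs => rw [h1]
    conv_lhs =>
      enter [2]
      rw [← h1]
    rw [← (hs _).tsum_add (hs _), Complex.ofReal_tsum, ← tsum_mul_left]
    refine tsum_congr fun n => ?_
    rw [← mul_add, Complex.exp_mul_I, Complex.exp_mul_I]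
    push_cast
    rw [Complex.cos_neg, Complex.sin_neg]
    ring
  exact mul_left_cancel₀ two_ne_zero h2

lemma tendsto_cos (a : ℝ) :
    Tendsto (fun s : ℝ => (Real.cos (s * a) - 1) / s ^ 2) (𝓝[≠] 0) (𝓝 (-(a ^ 2 / 2))) := by
  have h1 : HasDerivAt (fun s : ℝ => Real.sin (s * (a / 2))) (a / 2) 0 := by
    have h2 : HasDerivAt (fun s : ℝ => s * (a / 2)) (a / 2) 0 := by
      simpa using (hasDerivAt_id (0 : ℝ)).mul_const (a / 2)
    have h3 := h2.sin
    simpa using h3
  have h4 := h1.tendsto_slope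
  have h5 : Tendsto (fun s : ℝ => -2 * (slope (fun s : ℝ => Real.sin (s * (a / 2))) 0 s) ^ 2)
      (𝓝[≠] 0) (𝓝 (-2 * (a / 2) ^ 2)) := (h4.pow 2).const_mul (-2)
  have e1 : -2 * (a / 2) ^ 2 = -(a ^ 2 / 2) := by ring
  rw [e1] at h5
  refine h5.congr' ?_
  filter_upwards [self_mem_nhdsWithin] with s hs
  have hs' : s ≠ 0 := hs
  rw [slope_def_field]
  simp only [zero_mul, Real.sin_zero, sub_zero]
  have e2 : Real.cos (s * a) = 1 - 2 * Real.sin (s * (a / 2)) ^ 2 := by
    have : s * a = 2 * (s * (a / 2)) := by ring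
    rw [this, Real.cos_two_mul, Real.cos_sq']
    ring
  rw [e2]
  field_simp
  ring

/-- the second order term of the theta constants -/
noncomputable def Wv (i j k l : Fin g) (κ : ℝ) : (Fin g → Fin 2) → ℂ := fun e =>
  ((-(2 * Real.pi ^ 2) * ∑' n : Fin g → ℤ, cw e n * Qv i j k l κ (mv e n) ^ 2 : ℝ) : ℂ)

lemma tendsto_theta {i j k l : Fin g} (hi : blk i = true) (hj : blk j = false) (hk : blk k = true)
    (hl : blk l = false) {κ : ℝ} (hκ : |κ| ≤ 1) :
    Tendsto (fun s : ℝ => (((s ^ 2 : ℝ) : ℂ))⁻¹ • (thetaVec (curve i j k l κ s) - thetaVec (tau0 g)))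
      (𝓝[≠] 0) (𝓝 (Wv i j k l κ)) := by
  rw [tendsto_pi_nhds]
  intro e
  have h0 : thetaVec (tau0 g) e = ((∑' n : Fin g → ℤ, cw e n : ℝ) : ℂ) := by
    rw [← curve_zero i j k l κ, thetaVec_curve' hi hj hk hl]
    simp
  have hsc : ∀ s : ℝ, Summable fun n => cw e n * Real.cos (2 * Real.pi * s * Qv i j k l κ (mv e n)) := by
    intro s
    refine Summable.of_norm_bounded (summable_cw e) fun n => ?_
    rw [norm_mul, Real.norm_of_nonneg (cw_nonneg e n)]
    have := Real.abs_cos_le_one (2 * Real.pi * s * Qv i j k l κ (mv e n))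
    exact mul_le_of_le_one_right (cw_nonneg e n) this
  have h1 : ∀ s : ℝ, ((((s ^ 2 : ℝ) : ℂ))⁻¹ • (thetaVec (curve i j k l κ s) - thetaVec (tau0 g))) e =
      ((∑' n : Fin g → ℤ, cw e n * ((Real.cos (s * (2 * Real.pi * Qv i j k l κ (mv e n))) - 1) / s ^ 2) :
        ℝ) : ℂ) := by
    intro s
    rw [Pi.smul_apply, Pi.sub_apply, thetaVec_curve' hi hj hk hl, h0, ← Complex.ofReal_sub,
      ← (hsc s).tsum_sub (summable_cw e), smul_eq_mul, ← Complex.ofReal_inv, ← Complex.ofReal_mul,
      ← tsum_mul_left]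
    congr 1
    refine tsum_congr fun n => ?_
    have : 2 * Real.pi * s * Qv i j k l κ (mv e n) = s * (2 * Real.pi * Qv i j k l κ (mv e n)) := by ring
    rw [this]
    ring
  simp only [h1]
  unfold Wv
  apply (Complex.continuous_ofReal.tendsto _).comp
  have h2 : -(2 * Real.pi ^ 2) * ∑' n : Fin g → ℤ, cw e n * Qv i j k l κ (mv e n) ^ 2 =
      ∑' n : Fin g → ℤ, cw e n * (-((2 * Real.pi * Qv i j k l κ (mv e n)) ^ 2 / 2)) := by
    rw [← tsum_mul_left]
    refine tsum_congr fun n => ?_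
    ring
  rw [h2]
  have hsum : Summable fun n : Fin g → ℤ => cw e n * Qv i j k l κ (mv e n) ^ 2 :=
    summable_cw_mul e (by norm_num : (0 : ℝ) ≤ 4) _ fun n => Qv_le hκ i j k l (mv e n)
  refine tendsto_tsum_of_dominated_convergence (hsum.mul_left (2 * Real.pi ^ 2)) (fun n => ?_) ?_
  · exact (tendsto_cos _).const_mul _
  · refine Eventually.of_forall fun s n => ?_
    rw [norm_mul, Real.norm_of_nonneg (cw_nonneg e n)]
    have h3 : ‖(Real.cos (s * (2 * Real.pi * Qv i j k l κ (mv e n))) - 1) / s ^ 2‖ ≤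
        2 * Real.pi ^ 2 * Qv i j k l κ (mv e n) ^ 2 := by
      by_cases hs : s = 0
      · subst hs
        simp
        positivity
      rw [Real.norm_eq_abs, abs_div, abs_of_nonneg (sq_nonneg s), div_le_iff₀ (by positivity)]
      have h4 := Real.one_sub_sq_div_two_le_cos (x := s * (2 * Real.pi * Qv i j k l κ (mv e n)))
      have h5 := Real.cos_le_one (s * (2 * Real.pi * Qv i j k l κ (mv e n)))
      rw [abs_of_nonpos (by linarith)]
      nlinarith
    calc cw e n * _ ≤ cw e n * (2 * Real.pi ^ 2 * Qv i j k l κ (mv e n) ^ 2) :=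
          mul_le_mul_of_nonneg_left h3 (cw_nonneg e n)
      _ = _ := by ring

/-- the relation between the second order terms -/
lemma Wv_relation (i j k l : Fin g) :
    Wv i j k l 1 - Wv i j k l (-1) = Wv i l k j 1 - Wv i l k j (-1) := by
  funext e
  have hs : ∀ (i j k l : Fin g) (κ : ℝ), |κ| ≤ 1 →
      Summable fun n : Fin g → ℤ => cw e n * Qv i j k l κ (mv e n) ^ 2 := fun i j k l κ hκ =>
    summable_cw_mul e (by norm_num : (0 : ℝ) ≤ 4) _ fun n => Qv_le hκ i j k l (mv e n)
  simp only [Pi.sub_apply, Wv]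
  rw [← Complex.ofReal_sub, ← Complex.ofReal_sub, ← mul_sub, ← mul_sub,
    ← (hs i j k l 1 (by simp)).tsum_sub (hs i j k l (-1) (by simp)),
    ← (hs i l k j 1 (by simp)).tsum_sub (hs i l k j (-1) (by simp))]
  congr 2
  refine tsum_congr fun n => ?_
  unfold Qv
  ring

end Pool.Agent.Q60.TM
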